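import Pool.Agent.X25.Pk.Final

/-!
All differences up to `n`: the lower bound `19/108`.
-/

set_option autoImplicit false

namespace Pool.Agent.X25.Pk

open Finset Filter Topology

/-- `∑_{p ≤ y/3} (y p - 3 p²)` -/
noncomputable def G1 (y : ℝ) : ℝ := ∑ p ∈ Pr (y / 3), (y * p - 3 * (p : ℝ) ^ 2)

lemma tendsto_third : Tendsto (fun y : ℝ => Real.log (y / 3) / Real.log y) atTop (𝓝 1) := by
  have h1 : Tendsto (fun y : ℝ => 1 - Real.log 3 / Real.log y) atTop (𝓝 1) := by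
    have h3 := (tendsto_const_nhds (x := Real.log 3)).div_atTop Real.tendsto_log_atTop
    have h4 := (tendsto_const_nhds (x := (1 : ℝ))).sub h3
    simpa using h4
  refine h1.congr' ?_
  filter_upwards [eventually_gt_atTop 1] with y hy
  have hly : 0 < Real.log y := Real.log_pos hy
  rw [Real.log_div (by positivity) (by norm_num), sub_div, div_self hly.ne']

lemma G1_lim : Tendsto (fun y => G1 y * Real.log y / y ^ 3) atTop (𝓝 (1 / 54)) := by
  have ht : Tendsto (fun y : ℝ => y / 3) atTop atTop := tendsto_id.atTop_div_const (by norm_num)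
  have h1 := (sum_p1.comp ht).const_mul (1 / 9)
  have h2 := (sum_p2.comp ht).const_mul (1 / 9)
  have h3 := tendsto_third.inv₀ one_ne_zero
  have h4 := (h1.sub h2).mul h3
  norm_num at h4
  refine h4.congr' ?_
  filter_upwards [eventually_gt_atTop 3] with y hy
  have hly : 0 < Real.log y := Real.log_pos (by linarith)
  have hly' : 0 < Real.log (y / 3) := Real.log_pos (by linarith)
  unfold G1
  rw [sum_sub_distrib, ← mul_sum, ← mul_sum]
  field_simp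
  ring

lemma T_lim : Tendsto (fun y => (S1 y + G1 y / 2 - 3 * y) * Real.log y / y ^ 3) atTop (𝓝 (19 / 108)) := by
  have h3 : Tendsto (fun y : ℝ => Real.log y / y) atTop (𝓝 0) :=
    Real.isLittleO_log_id_atTop.tendsto_div_nhds_zero
  have h4 := (h3.mul (tendsto_inv_atTop_zero (𝕜 := ℝ))).const_mul 3
  have h := (S1_lim.add (G1_lim.div_const 2)).sub h4
  norm_num at h
  refine h.congr' ?_
  filter_upwards [eventually_gt_atTop 1] with y hy
  have hy0 : 0 < y := by linarith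
  field_simp

theorem all_lower (n : ℕ) (hn : 13 ≤ n) :
    S1 ((n : ℝ) - 1) + G1 ((n : ℝ) - 1) / 2 - 3 * ((n : ℝ) - 1) ≤ ML (Icc 1 n) (fun _ => n) := by
  classical
  obtain ⟨y, hy⟩ : ∃ y : ℝ, y = (n : ℝ) - 1 := ⟨_, rfl⟩
  have hn' : (13 : ℝ) ≤ n := by exact_mod_cast hn
  have hy12 : 12 ≤ y := by rw [hy]; linarith
  have hy0 : 0 ≤ y := by linarith
  rw [← hy]
  obtain ⟨s, h1, h2⟩ := ML_spec (Icc 1 n) (fun d hd => (mem_Icc.1 hd).1) (fun _ => n)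
  obtain ⟨m, hm⟩ : ∃ m, m = ML (Icc 1 n) (fun _ => n) := ⟨_, rfl⟩
  rw [← hm] at h1 ⊢
  -- the primes
  obtain ⟨Q, hQ⟩ : ∃ Q, Q = (Pr y).erase 2 := ⟨_, rfl⟩
  obtain ⟨T, hT⟩ : ∃ T, T = (Pr (y / 3)).erase 2 := ⟨_, rfl⟩
  have hQm : ∀ p ∈ Q, p.Prime ∧ p ≠ 2 ∧ (p : ℝ) ≤ y := by
    intro p hp
    rw [hQ, mem_erase] at hp
    obtain ⟨h3, h4⟩ := (mem_Pr hy0).1 hp.2
    exact ⟨h3, hp.1, h4⟩
  have hTm : ∀ p ∈ T, p.Prime ∧ p ≠ 2 ∧ 3 * (p : ℝ) ≤ y := by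
    intro p hp
    rw [hT, mem_erase] at hp
    obtain ⟨h3, h4⟩ := (mem_Pr (by positivity)).1 hp.2
    exact ⟨h3, hp.1, by linarith⟩
  have hTQ : T ⊆ Q := by
    intro p hp
    obtain ⟨h3, h4, h5⟩ := hTm p hp
    have h6 : (0 : ℝ) ≤ p := Nat.cast_nonneg p
    rw [hQ, mem_erase]
    exact ⟨h4, (mem_Pr hy0).2 ⟨h3, by linarith⟩⟩
  -- the class
  obtain ⟨C, hCT, hCcl, hCsum⟩ : ∃ C ⊆ T, (∀ p ∈ C, ∀ q ∈ C, (2 : ℤ) ∣ s (2 * q) - s (2 * p)) ∧
      (∑ p ∈ T, (y * p - 3 * (p : ℝ) ^ 2)) / 2 ≤ ∑ p ∈ C, (y * p - 3 * (p : ℝ) ^ 2) := by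
    have hsplit := sum_filter_add_sum_filter_not T (fun p => Even (s (2 * p)))
      (fun p => y * (p : ℝ) - 3 * (p : ℝ) ^ 2)
    rcases le_total (∑ p ∈ T.filter (fun p => ¬ Even (s (2 * p))), (y * (p : ℝ) - 3 * (p : ℝ) ^ 2))
      (∑ p ∈ T.filter (fun p => Even (s (2 * p))), (y * (p : ℝ) - 3 * (p : ℝ) ^ 2)) with h | h
    · refine ⟨T.filter (fun p => Even (s (2 * p))), filter_subset _ _, ?_, by linarith⟩
      intro p hp q hq
      exact even_iff_two_dvd.1 (((mem_filter.1 hq).2).sub (mem_filter.1 hp).2)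
    · refine ⟨T.filter (fun p => ¬ Even (s (2 * p))), filter_subset _ _, ?_, by linarith⟩
      intro p hp q hq
      have h3 := Int.not_even_iff_odd.1 (mem_filter.1 hq).2
      have h4 := Int.not_even_iff_odd.1 (mem_filter.1 hp).2
      exact even_iff_two_dvd.1 (h3.sub_odd h4)
  -- the family
  obtain ⟨F₂, hF₂⟩ : ∃ F₂, F₂ = C.image (fun p => 2 * p) := ⟨_, rfl⟩
  have hdisj : Disjoint (Q \ C) F₂ := by
    rw [Finset.disjoint_left]
    intro d hd hd2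
    rw [hF₂, mem_image] at hd2
    obtain ⟨p, hp, rfl⟩ := hd2
    obtain ⟨h3, h4, h5⟩ := hQm _ (Finset.mem_sdiff.1 hd).1
    have h6 : 2 ∣ 2 * p := dvd_mul_right 2 p
    exact h4 (((Nat.prime_dvd_prime_iff_eq Nat.prime_two h3).1 h6).symm)
  have hpr : ∀ d ∈ (Q \ C) ∪ F₂, (d ∈ Q ∧ d ∉ C) ∨ ∃ p ∈ C, d = 2 * p := by
    intro d hd
    rcases mem_union.1 hd with h | h
    · exact Or.inl (Finset.mem_sdiff.1 h)
    · rw [hF₂, mem_image] at h
      obtain ⟨p, hp, rfl⟩ := h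
      exact Or.inr ⟨p, hp, rfl⟩
  have hsz : ∀ d ∈ (Q \ C) ∪ F₂, 1 ≤ d ∧ d + 1 ≤ n := by
    intro d hd
    have h3 : 1 ≤ d ∧ (d : ℝ) ≤ y := by
      rcases hpr d hd with ⟨h, _⟩ | ⟨p, hp, rfl⟩
      · obtain ⟨h3, h4, h5⟩ := hQm d h
        exact ⟨h3.pos, h5⟩
      · obtain ⟨h3, h4, h5⟩ := hTm p (hCT hp)
        have h6 : (0 : ℝ) ≤ p := Nat.cast_nonneg p
        refine ⟨by have := h3.pos; omega, ?_⟩
        push_cast
        linarith
    refine ⟨h3.1, ?_⟩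
    have : ((d + 1 : ℕ) : ℝ) ≤ n := by push_cast; linarith
    exact_mod_cast this
  have hmemn : ∀ d ∈ (Q \ C) ∪ F₂, d ∈ Icc 1 n := fun d hd => by
    have := hsz d hd
    rw [mem_Icc]
    omega
  have hodd : ∀ p ∈ Q, Nat.Coprime p 2 := by
    intro p hp
    obtain ⟨h3, h4, h5⟩ := hQm p hp
    exact (Nat.coprime_primes h3 Nat.prime_two).2 h4
  have hcl : ∀ d ∈ (Q \ C) ∪ F₂, ∀ e ∈ (Q \ C) ∪ F₂, d ≠ e → ((Nat.gcd d e : ℕ) : ℤ) ∣ s e - s d := by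
    intro d hd e he hde
    rcases hpr d hd with ⟨hdQ, hdC⟩ | ⟨p, hp, rfl⟩ <;> rcases hpr e he with ⟨heQ, heC⟩ | ⟨q, hq, rfl⟩
    · have h3 : Nat.gcd d e = 1 := (Nat.coprime_primes (hQm d hdQ).1 (hQm e heQ).1).2 hde
      rw [h3]; simp
    · have hne : d ≠ q := fun h => hdC (h ▸ hq)
      have h3 : Nat.Coprime d q := (Nat.coprime_primes (hQm d hdQ).1 (hTm q (hCT hq)).1).2 hne
      have h4 : Nat.gcd d (2 * q) = 1 := (hodd d hdQ).mul_right h3
      rw [h4]; simp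
    · have hne : e ≠ p := fun h => heC (h ▸ hp)
      have h3 : Nat.Coprime e p := (Nat.coprime_primes (hQm e heQ).1 (hTm p (hCT hp)).1).2 hne
      have h4 : Nat.gcd (2 * p) e = 1 := ((hodd e heQ).mul_right h3).symm
      rw [h4]; simp
    · have hne : p ≠ q := fun h => hde (by rw [h])
      have h3 : Nat.gcd (2 * p) (2 * q) = 2 := by
        rw [Nat.gcd_mul_left, (Nat.coprime_primes (hTm p (hCT hp)).1 (hTm q (hCT hq)).1).2 hne]
      rw [h3]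
      exact hCcl p hp q hq
  have hlow := lower_full n m ((Q \ C) ∪ F₂) s hsz (fun d hd => h1 d (hmemn d hd))
    (fun d hd e he => h2 d (hmemn d hd) e (hmemn e he)) hcl
  rw [← hy, sum_union hdisj] at hlow
  have hinj : Set.InjOn (fun p : ℕ => 2 * p) (C : Set ℕ) := by
    intro a _ b _ hab
    have : 2 * a = 2 * b := hab
    omega
  rw [hF₂, sum_image hinj] at hlow
  have hCQ : C ⊆ Q := hCT.trans hTQ
  have hsd := sum_sdiff (f := fun d : ℕ => y * (d : ℝ) - (d : ℝ) ^ 2) hCQ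
  have e1 : ∑ p ∈ C, (y * ((2 * p : ℕ) : ℝ) - ((2 * p : ℕ) : ℝ) ^ 2) =
      ∑ p ∈ C, (y * (p : ℝ) - (p : ℝ) ^ 2) + ∑ p ∈ C, (y * (p : ℝ) - 3 * (p : ℝ) ^ 2) := by
    rw [← sum_add_distrib]
    refine sum_congr rfl fun p _ => ?_
    push_cast
    ring
  rw [e1] at hlow
  -- removing the prime two
  have h2y : (2 : ℕ) ∈ Pr y := (mem_Pr hy0).2 ⟨Nat.prime_two, by push_cast; linarith⟩
  have h2y' : (2 : ℕ) ∈ Pr (y / 3) := (mem_Pr (by positivity)).2 ⟨Nat.prime_two, by push_cast; linarith⟩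
  have e2 : S1 y = ∑ p ∈ Q, (y * (p : ℝ) - (p : ℝ) ^ 2) + (y * 2 - 4) := by
    unfold S1
    rw [hQ, ← sum_erase_add _ _ h2y]
    push_cast
    ring
  have e3 : G1 y = ∑ p ∈ T, (y * (p : ℝ) - 3 * (p : ℝ) ^ 2) + (y * 2 - 12) := by
    unfold G1
    rw [hT, ← sum_erase_add _ _ h2y']
    push_cast
    ring
  rw [e2, e3]
  linarith

theorem prob3 : (∀ c : ℝ, c < 19 / 108 → ∀ᶠ n : ℕ in atTop,
    c < (ML (Icc 1 n) (fun _ => n) : ℝ) * Real.log n / (n : ℝ) ^ 3) := by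
  intro c hc
  have h := (shift_lim (fun y => S1 y + G1 y / 2 - 3 * y) (19 / 108) 1 T_lim).comp
    (tendsto_natCast_atTop_atTop (R := ℝ))
  filter_upwards [h.eventually (lt_mem_nhds hc), eventually_ge_atTop 13] with n hn1 hn2
  have hn' : (13 : ℝ) ≤ n := by exact_mod_cast hn2
  have hl : 0 < Real.log n := Real.log_pos (by linarith)
  refine lt_of_lt_of_le hn1 ?_
  simp only [Function.comp]
  have := all_lower n hn2
  gcongr

end Pool.Agent.X25.Pk
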