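import Pool.Agent.X25.Pk.Kron

/-!
For all but boundedly many primes `e` the inverses of `e` modulo a bounded number of primes are
in general position.
-/

set_option autoImplicit false

namespace Pool.Agent.X25.Pk

open Finset

lemma ee_sub_one (x : ℝ) (hx : |x| ≤ 1 / 2) : 4 * |x| ≤ ‖ee x - 1‖ := by
  have h1 : ee x = Complex.exp (Complex.I * ((2 * Real.pi * x : ℝ) : ℂ)) := by
    unfold ee
    congr 1
    push_cast
    ring
  rw [h1, Complex.norm_exp_I_mul_ofReal_sub_one, Real.norm_eq_abs, abs_mul, abs_two]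
  have hpi := Real.pi_pos
  have h2 : |2 * Real.pi * x / 2| ≤ Real.pi / 2 := by
    rw [show 2 * Real.pi * x / 2 = Real.pi * x by ring, abs_mul, abs_of_pos hpi]
    nlinarith
  have h3 := Real.mul_abs_le_abs_sin h2
  have h4 : 2 / Real.pi * |2 * Real.pi * x / 2| = 2 * |x| := by
    rw [show 2 * Real.pi * x / 2 = Real.pi * x by ring, abs_mul, abs_of_pos hpi]
    field_simp
  linarith

lemma geom (θ : ℝ) (m : ℤ) (hm : |θ - m| ≤ 1 / 2) (h0 : θ - m ≠ 0) (N : ℕ) :
    ‖∑ t ∈ range N, ee ((t : ℝ) * θ)‖ ≤ 1 / (2 * |θ - m|) := by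
  have hpos : 0 < |θ - m| := abs_pos.2 h0
  have e1 : ee θ = ee (θ - m) := by
    have : θ = (θ - m) + m := by ring
    conv_lhs => rw [this, ee_add, ee_int, mul_one]
  have h1 := ee_sub_one (θ - m) hm
  rw [← e1] at h1
  have hne : ee θ ≠ 1 := by
    intro h
    rw [h, sub_self, norm_zero] at h1
    linarith
  have h2 : ∑ t ∈ range N, ee ((t : ℝ) * θ) = (ee θ ^ N - 1) / (ee θ - 1) := by
    rw [← geom_sum_eq hne]
    exact sum_congr rfl fun t _ => ee_nat_mul t θ
  rw [h2, norm_div]
  have h3 : ‖ee θ ^ N - 1‖ ≤ 2 := by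
    refine (norm_sub_le _ _).trans ?_
    rw [norm_pow, ee_norm, one_pow, norm_one]
    norm_num
  calc ‖ee θ ^ N - 1‖ / ‖ee θ - 1‖ ≤ 2 / (4 * |θ - m|) := by
        apply div_le_div₀ (by norm_num) h3 (by positivity) h1
    _ = 1 / (2 * |θ - m|) := by
        field_simp
        norm_num

/-- the number of the primes `≥ z` dividing a nonzero integer -/
lemma few_primes (E : Finset ℕ) (z : ℝ) (hz : 1 ≤ z) (n : ℤ) (hn : n ≠ 0) (k : ℕ)
    (hE : ∀ e ∈ E, e.Prime ∧ z ≤ e ∧ (e : ℤ) ∣ n) (hb : |(n : ℝ)| < z ^ (k + 1)) : E.card ≤ k := by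
  by_contra hcon
  push Not at hcon
  have h1 : ∏ e ∈ E, e ∣ n.natAbs := by
    apply Finset.prod_primes_dvd
    · intro e he
      exact (hE e he).1.prime
    · intro e he
      exact Int.natCast_dvd.1 (hE e he).2.2
  have h2 : ∏ e ∈ E, e ≤ n.natAbs := Nat.le_of_dvd (Int.natAbs_pos.2 hn) h1
  have h3 : z ^ (k + 1) ≤ ∏ e ∈ E, (e : ℝ) := by
    calc z ^ (k + 1) ≤ z ^ E.card := pow_le_pow_right₀ hz hcon
      _ = ∏ e ∈ E, z := by rw [prod_const]
      _ ≤ ∏ e ∈ E, (e : ℝ) := prod_le_prod (fun _ _ => by linarith) fun e he => (hE e he).2.1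
  have h4 : (∏ e ∈ E, (e : ℝ)) ≤ |(n : ℝ)| := by
    have h5 : ((∏ e ∈ E, e : ℕ) : ℝ) ≤ (n.natAbs : ℝ) := by exact_mod_cast h2
    rw [Nat.cast_prod] at h5
    rw [← Int.cast_abs, Int.abs_eq_natAbs, Int.cast_natCast]
    exact h5
  linarith

/-- the numerators -/
def num (S : Finset ℕ) (h : ℕ → ℤ) : ℤ := ∑ d ∈ S, h d * ∏ d' ∈ S.erase d, (d' : ℤ)

lemma num_ne (S : Finset ℕ) (hS : ∀ d ∈ S, d.Prime) (h : ℕ → ℤ) (d : ℕ) (hd : d ∈ S)
    (hd0 : h d ≠ 0) (hhd : |h d| < d) : num S h ≠ 0 := by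
  intro h0
  have h1 : (d : ℤ) ∣ h d * ∏ d' ∈ S.erase d, (d' : ℤ) := by
    have h2 : num S h = h d * ∏ d' ∈ S.erase d, (d' : ℤ) +
        ∑ x ∈ S.erase d, h x * ∏ d' ∈ S.erase x, (d' : ℤ) := by
      unfold num
      rw [← add_sum_erase S _ hd]
    have h3 : (d : ℤ) ∣ ∑ x ∈ S.erase d, h x * ∏ d' ∈ S.erase x, (d' : ℤ) := by
      apply dvd_sum
      intro x hx
      apply Dvd.dvd.mul_left
      apply dvd_prod_of_mem
      rw [mem_erase]
      exact ⟨(ne_of_mem_erase hx).symm, hd⟩
    rw [h0] at h2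
    have h4 : h d * ∏ d' ∈ S.erase d, (d' : ℤ) =
        -∑ x ∈ S.erase d, h x * ∏ d' ∈ S.erase x, (d' : ℤ) := by linarith
    rw [h4]
    exact (dvd_neg).2 h3
  have hp : Prime (d : ℤ) := Nat.prime_iff_prime_int.1 (hS d hd)
  rcases hp.dvd_or_dvd h1 with h2 | h2
  · have := Int.le_of_dvd (abs_pos.2 hd0) ((dvd_abs _ _).2 h2)
    omega
  · rw [hp.dvd_finsetProd_iff] at h2
    obtain ⟨x, hx, hdx⟩ := h2
    have h5 : d ∣ x := by exact_mod_cast hdx
    have h6 := (Nat.prime_dvd_prime_iff_eq (hS d hd) (hS x (mem_of_mem_erase hx))).1 h5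
    exact (ne_of_mem_erase hx) h6.symm

theorem kron (K : ℕ) (ε δ : ℝ) (hε : 0 < ε) (hε1 : ε < 1) (hδ : 0 < δ) : ∃ (C : ℕ) (Y : ℝ),
    ∀ y : ℝ, Y ≤ y → ∀ S : Finset ℕ, S.card ≤ K → (∀ d ∈ S, d.Prime ∧ δ * y ≤ d ∧ (d : ℝ) ≤ y) →
    ∀ (a : ℕ → ℤ) (T : ℤ) (N : ℕ), ε * y ^ 2 ≤ N → ∀ E : Finset ℕ,
    (∀ e ∈ E, e.Prime ∧ δ * y ≤ e ∧ (e : ℝ) ≤ y ∧ e ∉ S) → C < E.card →
    ∃ e ∈ E, ∃ t : ℤ, T ≤ t ∧ t < T + N ∧ ∀ d ∈ S, ∃ u : ℕ, 1 ≤ u ∧ (u : ℝ) < ε * d ∧
      (d : ℤ) ∣ t - a d - e * u := by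
  classical
  obtain ⟨M, κ, hκ, hbox⟩ := kron_box K ε hε hε1
  obtain ⟨C, hC⟩ : ∃ C : ℕ, C = (2 * M + 1) ^ K * K := ⟨_, rfl⟩
  -- thresholds for y
  obtain ⟨Y, hY1, hY2, hY3, hY4, hY5⟩ : ∃ Y : ℝ, 1 ≤ Y ∧ 1 / (κ * ε) < Y ∧ 2 * (K * M) / δ < Y ∧
      1 / δ + M / δ < Y ∧ (K * M : ℝ) / δ ^ (K + 1) < Y := by
    refine ⟨1 + 1 / (κ * ε) + 2 * (K * M) / δ + (1 / δ + M / δ) + (K * M : ℝ) / δ ^ (K + 1), ?_⟩
    have h1 : 0 < 1 / (κ * ε) := by positivity
    have h2 : 0 ≤ 2 * ((K : ℝ) * M) / δ := by positivity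
    have h3 : 0 < 1 / δ + (M : ℝ) / δ := by positivity
    have h4 : 0 ≤ (K * M : ℝ) / δ ^ (K + 1) := by positivity
    refine ⟨by linarith, by linarith, by linarith, by linarith, by linarith⟩
  refine ⟨C, Y, ?_⟩
  intro y hy S hSK hS a T N hN E hE hEC
  have hy1 : 1 ≤ y := hY1.trans hy
  have hy0 : 0 < y := by linarith
  have hN0r : (0 : ℝ) < N := lt_of_lt_of_le (by positivity) hN
  have hN0 : 0 < N := by exact_mod_cast hN0r
  have hδy1 : 1 ≤ δ * y := by
    have h : 1 / δ < y := by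
      have : 0 ≤ (M : ℝ) / δ := by positivity
      linarith
    rw [div_lt_iff₀ hδ] at h
    linarith
  have hδyM : (M : ℝ) < δ * y := by
    have h : (M : ℝ) / δ < y := by
      have : 0 < 1 / δ := by positivity
      linarith
    rw [div_lt_iff₀ hδ] at h
    linarith
  -- the product
  set R : ℝ := ∏ d ∈ S, (d : ℝ) with hR
  have hR0 : 0 < R := prod_pos fun d hd => by
    have := (hS d hd).1.pos
    exact_mod_cast this
  have hRy : R ≤ y ^ K := by
    calc R ≤ ∏ d ∈ S, y := prod_le_prod (fun d _ => Nat.cast_nonneg d) fun d hd => (hS d hd).2.2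
      _ = y ^ S.card := by rw [prod_const]
      _ ≤ y ^ K := pow_le_pow_right₀ hy1 hSK
  -- the set of the bad primes is contained in the union
  set H : Finset (ℕ → ℤ) := (Fintype.piFinset (fun _ : S => Icc (-(M : ℤ)) M)).image
    (fun h d => if hd : d ∈ S then h ⟨d, hd⟩ else 0) with hH
  have hHcard : H.card ≤ (2 * M + 1) ^ K := by
    refine card_image_le.trans ?_
    rw [Fintype.card_piFinset, prod_const, card_univ, Fintype.card_coe, Int.card_Icc]
    have : ((M : ℤ) + 1 - -(M : ℤ)).toNat = 2 * M + 1 := by omega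
    rw [this]
    exact Nat.pow_le_pow_right (by omega) hSK
  by_contra hcon
  push Not at hcon
  -- every element of E is bad
  have hbad : ∀ e ∈ E, ∃ h ∈ H, num S h ≠ 0 ∧ |(num S h : ℝ)| ≤ K * M * R / (δ * y) ∧ (e : ℤ) ∣ num S h := by
    intro e he
    obtain ⟨hep, hey, hey2, heS⟩ := hE e he
    have he0 : 0 < (e : ℝ) := by exact_mod_cast hep.pos
    -- inverses
    have hinv : ∀ d : S, ∃ b f : ℤ, (e : ℤ) * b = 1 + d.1 * f := by
      intro d
      have hcop : Nat.Coprime e d.1 := by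
        rw [Nat.coprime_primes hep (hS d.1 d.2).1]
        intro h
        exact heS (h ▸ d.2)
      have h1 := Nat.isCoprime_iff_coprime.2 hcop
      obtain ⟨u, v, huv⟩ := h1
      exact ⟨u, -v, by linear_combination huv⟩
    choose b f hbf using hinv
    by_contra hnot
    push Not at hnot
    -- apply the box theorem
    have hsmall : ∀ h : S → ℤ, h ≠ 0 → (∀ i, |h i| ≤ M) →
        ‖∑ t ∈ range N, ee ((t : ℝ) * ∑ i, (h i : ℝ) * ((b i : ℝ) / ((i : ℕ) : ℝ)))‖ ≤ κ * N := by
      intro h hne hM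
      set θ : ℝ := ∑ i, (h i : ℝ) * ((b i : ℝ) / ((i : ℕ) : ℝ)) with hθ
      by_contra hlarge
      push Not at hlarge
      obtain ⟨m, hm⟩ : ∃ m : ℤ, m = round θ := ⟨_, rfl⟩
      have hround : |θ - m| ≤ 1 / 2 := by rw [hm]; exact abs_sub_round θ
      have hθm : |θ - m| < 1 / (2 * κ * N) := by
        by_cases h0 : θ - m = 0
        · rw [h0, abs_zero]; positivity
        · have h1 := geom θ m hround h0 N
          have h2 : κ * N < 1 / (2 * |θ - m|) := lt_of_lt_of_le hlarge h1
          have h3 : 0 < |θ - m| := abs_pos.2 h0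
          rw [lt_div_iff₀ (by positivity)] at h2 ⊢
          linarith
      -- extend h
      obtain ⟨h', hh'⟩ : ∃ h' : ℕ → ℤ, h' = fun d => if hd : d ∈ S then h ⟨d, hd⟩ else 0 := ⟨_, rfl⟩
      have hh'H : h' ∈ H := by
        rw [hH, mem_image]
        refine ⟨h, ?_, hh'.symm⟩
        rw [Fintype.mem_piFinset]
        intro i
        rw [mem_Icc]
        have := abs_le.1 (hM i)
        exact this
      have hh'S : ∀ d : S, h' d.1 = h d := by
        intro d
        rw [hh']
        simp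
      obtain ⟨d₀, hd₀⟩ : ∃ d : S, h d ≠ 0 := by
        by_contra hall
        push Not at hall
        exact hne (funext hall)
      have hnum0 : num S h' ≠ 0 := by
        apply num_ne S (fun d hd => (hS d hd).1) h' d₀.1 d₀.2
        · rw [hh'S]; exact hd₀
        · rw [hh'S]
          have h1 : (M : ℝ) < (d₀.1 : ℝ) := lt_of_lt_of_le hδyM (hS d₀.1 d₀.2).2.1
          have h2 : M < d₀.1 := by exact_mod_cast h1
          have h3 := hM d₀
          omega
      -- the size of the numerator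
      have hRd : ∀ d ∈ S, ((∏ d' ∈ S.erase d, (d' : ℤ) : ℤ) : ℝ) = R / d := by
        intro d hd
        have hd0 : (d : ℝ) ≠ 0 := by
          have := (hS d hd).1.pos
          exact_mod_cast this.ne'
        rw [hR, ← mul_prod_erase S _ hd]
        push_cast
        field_simp
      have hnumle : |(num S h' : ℝ)| ≤ K * M * R / (δ * y) := by
        unfold num
        push_cast
        refine (abs_sum_le_sum_abs _ _).trans ?_
        calc ∑ d ∈ S, |(h' d : ℝ) * ∏ d' ∈ S.erase d, (d' : ℝ)| ≤ ∑ d ∈ S, M * (R / (δ * y)) := by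
              refine sum_le_sum fun d hd => ?_
              have h1 := hRd d hd
              push_cast at h1
              rw [h1, abs_mul]
              have h2 : |(h' d : ℝ)| ≤ M := by
                have h3 := hM ⟨d, hd⟩
                rw [← hh'S ⟨d, hd⟩] at h3
                rw [← Int.cast_abs]
                exact_mod_cast h3
              have hd0 : (0 : ℝ) < d := by
                have := (hS d hd).1.pos
                exact_mod_cast this
              rw [abs_of_pos (by positivity : 0 < R / d)]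
              apply mul_le_mul h2 _ (by positivity) (by positivity)
              apply div_le_div_of_nonneg_left hR0.le (by positivity) (hS d hd).2.1
          _ = S.card * (M * (R / (δ * y))) := by rw [sum_const, nsmul_eq_mul]
          _ ≤ K * (M * (R / (δ * y))) := by
              apply mul_le_mul_of_nonneg_right _ (by positivity)
              exact_mod_cast hSK
          _ = _ := by ring
      apply hnot h' hh'H hnum0 hnumle
      -- divisibility
      have hRθ : R * θ = ∑ i : S, (h i : ℝ) * (b i : ℝ) * (R / ((i : ℕ) : ℝ)) := by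
        rw [hθ, mul_sum]
        refine sum_congr rfl fun i _ => ?_
        ring
      have hnum' : (num S h' : ℝ) = ∑ i : S, (h i : ℝ) * (R / ((i : ℕ) : ℝ)) := by
        unfold num
        push_cast
        rw [← sum_coe_sort S]
        refine sum_congr rfl fun i _ => ?_
        have h1 := hRd i.1 i.2
        push_cast at h1
        rw [h1, hh'S]
      obtain ⟨r, hr⟩ : ∃ r : ℤ, (r : ℝ) = R * (θ - m) := by
        refine ⟨∑ i : S, h i * b i * ∏ d' ∈ S.erase i.1, (d' : ℤ) - (∏ d ∈ S, (d : ℤ)) * m, ?_⟩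
        rw [mul_sub, hRθ]
        push_cast
        congr 1
        refine sum_congr rfl fun i _ => ?_
        have h1 := hRd i.1 i.2
        push_cast at h1
        rw [h1]
      obtain ⟨k, hk⟩ : ∃ k : ℤ, k = ∑ i : S, h i * f i - e * m := ⟨_, rfl⟩
      have hmain : (e : ℝ) * r = num S h' + R * k := by
        rw [hr, hnum', hk]
        have h1 : (e : ℝ) * (R * (θ - m)) = e * (R * θ) - e * R * m := by ring
        rw [h1, hRθ, mul_sum]
        push_cast
        rw [mul_sub, mul_sum]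
        have h2 : ∀ i : S, (e : ℝ) * ((h i : ℝ) * (b i : ℝ) * (R / ((i : ℕ) : ℝ))) =
            (h i : ℝ) * (R / ((i : ℕ) : ℝ)) + R * ((h i : ℝ) * (f i : ℝ)) := by
          intro i
          have h3 : (e : ℝ) * (b i : ℝ) = 1 + ((i : ℕ) : ℝ) * (f i : ℝ) := by
            exact_mod_cast hbf i
          have hi0 : ((i : ℕ) : ℝ) ≠ 0 := by
            have := (hS i.1 i.2).1.pos
            exact_mod_cast this.ne'
          calc (e : ℝ) * ((h i : ℝ) * (b i : ℝ) * (R / ((i : ℕ) : ℝ)))
              = (h i : ℝ) * (R / ((i : ℕ) : ℝ)) * ((e : ℝ) * (b i : ℝ)) := by ring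
            _ = _ := by rw [h3]; field_simp
        rw [sum_congr rfl fun i _ => h2 i, sum_add_distrib]
        ring
      have hk0 : k = 0 := by
        by_contra hk0
        have h1 : (1 : ℝ) ≤ |(k : ℝ)| := by
          have : 1 ≤ |k| := Int.one_le_abs hk0
          rw [← Int.cast_abs]
          exact_mod_cast this
        have h2 : |R * (k : ℝ)| < R := by
          have h3 : R * (k : ℝ) = e * r - num S h' := by linarith
          rw [h3]
          have h4 : |(e : ℝ) * r| < R / 2 := by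
            rw [abs_mul, abs_of_pos he0, hr, abs_mul, abs_of_pos hR0]
            calc (e : ℝ) * (R * |θ - m|) < y * (R * (1 / (2 * κ * N))) := by
                  apply mul_lt_mul_of_le_of_lt_of_nonneg_of_pos hey2 _ (by positivity) hy0
                  exact mul_lt_mul_of_pos_left hθm hR0
              _ ≤ y * (R * (1 / (2 * κ * (ε * y ^ 2)))) := by gcongr
              _ = R / 2 * ((1 / (κ * ε)) / y) := by field_simp
              _ ≤ R / 2 * 1 := by
                  apply mul_le_mul_of_nonneg_left _ (by positivity)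
                  rw [div_le_one hy0]
                  linarith
              _ = R / 2 := mul_one _
          have h5 : |(num S h' : ℝ)| ≤ R / 2 := by
            refine hnumle.trans ?_
            rw [div_le_iff₀ (by positivity)]
            have h6 : 2 * ((K : ℝ) * M) < y * δ := by
              rw [div_lt_iff₀ hδ] at hY3
              nlinarith
            nlinarith
          calc |(e : ℝ) * r - num S h'| ≤ |(e : ℝ) * r| + |(num S h' : ℝ)| := abs_sub _ _
            _ < R / 2 + R / 2 := add_lt_add_of_lt_of_le h4 h5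
            _ = R := by ring
        rw [abs_mul, abs_of_pos hR0] at h2
        nlinarith
      rw [hk0] at hmain
      refine ⟨r, ?_⟩
      have : ((num S h' : ℤ) : ℝ) = ((e * r : ℤ) : ℝ) := by
        push_cast
        push_cast at hmain
        linarith
      exact_mod_cast this
    -- now the box theorem gives t
    obtain ⟨t, htN, ht⟩ := hbox S (by rw [Fintype.card_coe]; exact hSK)
      (fun i => (b i : ℝ) / ((i : ℕ) : ℝ)) (fun i => ((T - a i.1 : ℤ) : ℝ) * (b i : ℝ) / ((i : ℕ) : ℝ))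
      N hN0 hsmall
    obtain ⟨d, hd, hdu⟩ := hcon e he (T + t) (by omega) (by omega)
    obtain ⟨h1, h2⟩ := ht ⟨d, hd⟩
    have hd0 : (0 : ℝ) < d := by
      have := (hS d hd).1.pos
      exact_mod_cast this
    -- the residue
    obtain ⟨w, hw⟩ : ∃ w : ℤ, w = (T + t - a d) * b ⟨d, hd⟩ := ⟨_, rfl⟩
    have hx : (b ⟨d, hd⟩ : ℝ) / ((d : ℕ) : ℝ) * (t : ℝ) + ((T - a d : ℤ) : ℝ) * (b ⟨d, hd⟩ : ℝ) / ((d : ℕ) : ℝ) =
        (w : ℝ) / d := by
      rw [hw]
      push_cast
      field_simp
      ring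
    have hfr : Int.fract ((w : ℝ) / d) = ((w % d : ℤ) : ℝ) / d := Int.fract_div_intCast_eq_div_intCast_mod
    rw [hx, hfr] at h1 h2
    have hmod0 : 0 ≤ w % d := Int.emod_nonneg _ (by exact_mod_cast hd0.ne')
    obtain ⟨u, hu⟩ := Int.eq_ofNat_of_zero_le hmod0
    rw [hu] at h1 h2
    have hu1 : 1 ≤ u := by
      rcases Nat.eq_zero_or_pos u with h3 | h3
      · rw [h3] at h1
        simp at h1
      · exact h3
    have hu2 : (u : ℝ) < ε * d := by
      rw [div_lt_iff₀ hd0] at h2
      simpa using h2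
    apply hdu u hu1 hu2
    -- `d ∣ T + t - a d - e u`
    have h3 : (d : ℤ) ∣ w - u := by
      rw [← hu]
      exact Int.dvd_self_sub_emod
    have h4 := hbf ⟨d, hd⟩
    have h5 : T + (t : ℤ) - a d - e * u =
        e * (w - u) - d * (f ⟨d, hd⟩ * (T + t - a d)) := by
      rw [hw]
      linear_combination (-(T + t - a d)) * h4
    rw [h5]
    exact dvd_sub (Dvd.dvd.mul_left h3 _) (dvd_mul_right _ _)
  -- counting
  have hsub : E ⊆ (H.filter (fun h => num S h ≠ 0 ∧ |(num S h : ℝ)| ≤ K * M * R / (δ * y))).biUnion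
      (fun h => E.filter (fun e : ℕ => (e : ℤ) ∣ num S h)) := by
    intro e he
    obtain ⟨h, hh1, hh2, hh3, hh4⟩ := hbad e he
    rw [mem_biUnion]
    exact ⟨h, mem_filter.2 ⟨hh1, hh2, hh3⟩, mem_filter.2 ⟨he, hh4⟩⟩
  have hcard : E.card ≤ C := by
    refine (card_le_card hsub).trans ?_
    refine card_biUnion_le.trans ?_
    calc ∑ h ∈ H.filter (fun h => num S h ≠ 0 ∧ |(num S h : ℝ)| ≤ K * M * R / (δ * y)),
          (E.filter (fun e : ℕ => (e : ℤ) ∣ num S h)).card
        ≤ ∑ h ∈ H.filter (fun h => num S h ≠ 0 ∧ |(num S h : ℝ)| ≤ K * M * R / (δ * y)), K := by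
          refine sum_le_sum fun h hh => ?_
          obtain ⟨_, h1, h2⟩ := mem_filter.1 hh
          apply few_primes _ (δ * y) hδy1 (num S h) h1 K
          · intro e he
            obtain ⟨he1, he2⟩ := mem_filter.1 he
            exact ⟨(hE e he1).1, (hE e he1).2.1, he2⟩
          · refine lt_of_le_of_lt h2 ?_
            rw [div_lt_iff₀ (by positivity)]
            calc (K : ℝ) * M * R ≤ K * M * y ^ K := by gcongr
              _ < (δ * y) ^ (K + 1) * (δ * y) := by
                  have h3 : (K * M : ℝ) < y * δ ^ (K + 1) := by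
                    rw [div_lt_iff₀ (by positivity)] at hY5
                    nlinarith [pow_pos hδ (K + 1)]
                  have h4 : (K : ℝ) * M * y ^ K < (δ * y) ^ (K + 1) := by
                    rw [mul_pow, pow_succ y K]
                    have h5 : 0 < y ^ K := by positivity
                    nlinarith
                  have h6 : 0 < (δ * y) ^ (K + 1) := by positivity
                  nlinarith
      _ = (H.filter (fun h => num S h ≠ 0 ∧ |(num S h : ℝ)| ≤ K * M * R / (δ * y))).card * K := by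
          rw [sum_const, smul_eq_mul]
      _ ≤ (2 * M + 1) ^ K * K := by
          apply Nat.mul_le_mul_right
          exact (card_filter_le _ _).trans hHcard
      _ = C := hC.symm
  omega

end Pool.Agent.X25.Pk
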