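import Pool.Agent.X25.Pk.Arith

/-!
Packing progressions whose differences are primes of about the same size.
-/

set_option autoImplicit false

namespace Pool.Agent.X25.Pk

open Finset

/-- the translates `s d + {d, 2 d, ..., (len d) d}`, `d ∈ D`, are pairwise disjoint subsets of `[1, m]`
for suitable `s` -/
def Packs (D : Finset ℕ) (len : ℕ → ℕ) (m : ℕ) : Prop :=
  ∃ s : ℕ → ℤ, (∀ d ∈ D, ∀ i : ℕ, 1 ≤ i → i ≤ len d → 1 ≤ s d + i * d ∧ s d + i * d ≤ m) ∧
    ∀ d ∈ D, ∀ e ∈ D, d ≠ e → ∀ i j : ℕ, 1 ≤ i → i ≤ len d → 1 ≤ j → j ≤ len e →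
      s d + i * d ≠ s e + j * e

lemma packs_mono {D : Finset ℕ} {len : ℕ → ℕ} {m m' : ℕ} (h : m ≤ m') (hp : Packs D len m) :
    Packs D len m' := by
  obtain ⟨s, h1, h2⟩ := hp
  refine ⟨s, fun d hd i hi hi' => ⟨(h1 d hd i hi hi').1, ?_⟩, h2⟩
  have := (h1 d hd i hi hi').2
  have h3 : (m : ℤ) ≤ m' := by exact_mod_cast h
  linarith

lemma packs_subset {D D' : Finset ℕ} {len : ℕ → ℕ} {m : ℕ} (h : D' ⊆ D) (hp : Packs D len m) :
    Packs D' len m := by
  obtain ⟨s, h1, h2⟩ := hp
  exact ⟨s, fun d hd => h1 d (h hd), fun d hd e he => h2 d (h hd) e (h he)⟩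

lemma packs_empty (len : ℕ → ℕ) : Packs ∅ len 0 :=
  ⟨fun _ => 0, by simp, by simp⟩

lemma packs_union {D₁ D₂ : Finset ℕ} {len : ℕ → ℕ} {m₁ m₂ : ℕ} (h₁ : Packs D₁ len m₁)
    (h₂ : Packs D₂ len m₂) : Packs (D₁ ∪ D₂) len (m₁ + m₂) := by
  classical
  obtain ⟨s₁, a1, a2⟩ := h₁
  obtain ⟨s₂, b1, b2⟩ := h₂
  refine ⟨fun d => if d ∈ D₁ then s₁ d else s₂ d + m₁, ?_, ?_⟩
  · intro d hd i hi hi'
    push_cast
    by_cases hd1 : d ∈ D₁
    · simp only [if_pos hd1]
      have := a1 d hd1 i hi hi'
      constructor <;> omega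
    · simp only [if_neg hd1]
      have hd2 : d ∈ D₂ := by
        rcases mem_union.1 hd with h | h
        · exact absurd h hd1
        · exact h
      have := b1 d hd2 i hi hi'
      constructor <;> linarith [this.1, this.2]
  · intro d hd e he hde i j hi hi' hj hj'
    by_cases hd1 : d ∈ D₁ <;> by_cases he1 : e ∈ D₁
    · simp only [if_pos hd1, if_pos he1]
      exact a2 d hd1 e he1 hde i j hi hi' hj hj'
    · simp only [if_pos hd1, if_neg he1]
      have he2 : e ∈ D₂ := by
        rcases mem_union.1 he with h | h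
        · exact absurd h he1
        · exact h
      have h3 := a1 d hd1 i hi hi'
      have h4 := b1 e he2 j hj hj'
      intro h5
      linarith [h3.2, h4.1]
    · simp only [if_neg hd1, if_pos he1]
      have hd2 : d ∈ D₂ := by
        rcases mem_union.1 hd with h | h
        · exact absurd h hd1
        · exact h
      have h3 := a1 e he1 j hj hj'
      have h4 := b1 d hd2 i hi hi'
      intro h5
      linarith [h3.2, h4.1]
    · simp only [if_neg hd1, if_neg he1]
      have hd2 : d ∈ D₂ := by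
        rcases mem_union.1 hd with h | h
        · exact absurd h hd1
        · exact h
      have he2 : e ∈ D₂ := by
        rcases mem_union.1 he with h | h
        · exact absurd h he1
        · exact h
      have := b2 d hd2 e he2 hde i j hi hi' hj hj'
      intro h5
      apply this
      linarith

lemma packs_single (d : ℕ) (hd : 0 < d) (len : ℕ → ℕ) : Packs {d} len (len d * d) := by
  refine ⟨fun _ => 0, ?_, ?_⟩
  · intro e he i hi hi'
    rw [mem_singleton] at he
    subst he
    constructor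
    · have : 1 ≤ i * e := Nat.one_le_iff_ne_zero.2 (by positivity)
      rw [zero_add]
      exact_mod_cast this
    · push_cast
      rw [zero_add]
      exact_mod_cast Nat.mul_le_mul_right e hi'
  · intro e he f hf hef
    rw [mem_singleton] at he hf
    exact absurd (he.trans hf.symm) hef

lemma packs_trivial (D : Finset ℕ) (hD : ∀ d ∈ D, 0 < d) (len : ℕ → ℕ) :
    Packs D len (∑ d ∈ D, len d * d) := by
  classical
  induction D using Finset.induction_on with
  | empty => rw [sum_empty]; exact packs_empty len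
  | insert a D ha ih =>
    rw [sum_insert ha, insert_eq]
    exact packs_union (packs_single a (hD a (mem_insert_self _ _)) len)
      (ih fun d hd => hD d (mem_insert_of_mem hd))

lemma packs_biUnion {ι : Type} [DecidableEq ι] (J : Finset ι) (P : ι → Finset ℕ) (len : ℕ → ℕ) (m : ι → ℕ)
    (h : ∀ j ∈ J, Packs (P j) len (m j)) : Packs (J.biUnion P) len (∑ j ∈ J, m j) := by
  classical
  induction J using Finset.induction_on with
  | empty => simpa using packs_empty len
  | insert a J ha ih =>
    rw [sum_insert ha, biUnion_insert]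
    exact packs_union (h a (mem_insert_self _ _)) (ih fun j hj => h j (mem_insert_of_mem hj))

/-- the state of the greedy procedure -/
def State (P : Finset ℕ) (len : ℕ → ℕ) (Δ W k : ℕ) (A : Finset ℕ) (s : ℕ → ℤ) (idx : ℕ → ℕ) : Prop :=
  A ⊆ P ∧ A.card = k ∧ (∀ d ∈ A, ∀ e ∈ A, idx d = idx e → d = e) ∧
  (∀ d ∈ A, idx d < k ∧ ((idx d * Δ : ℕ) : ℤ) ≤ s d ∧ s d ≤ ((idx d * Δ + W : ℕ) : ℤ)) ∧
  ∀ d ∈ A, ∀ e ∈ A, d ≠ e → ∀ i j : ℕ, 1 ≤ i → i ≤ len d → 1 ≤ j → j ≤ len e →
      s d + i * d ≠ s e + j * e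

theorem block (ε δ c : ℝ) (hε : 0 < ε) (hε1 : ε < 1) (hδ : 0 < δ) (hc : 0 < c) : ∃ C Y : ℝ, 0 ≤ C ∧
    ∀ y : ℝ, Y ≤ y → ∀ (D : ℝ) (Δ : ℕ), δ * y ≤ D → c * y ^ 2 ≤ Δ → ∀ (len : ℕ → ℕ) (P : Finset ℕ),
    (∀ p ∈ P, p.Prime ∧ D ≤ p ∧ (p : ℝ) ≤ y ∧ (len p : ℝ) * p ≤ y ^ 2 ∧
      (len p : ℝ) * p + ε * y ^ 2 + 1 ≤ Δ + (1 - ε) * D ^ 2) →
    ∃ m : ℕ, Packs P len m ∧ (m : ℝ) ≤ P.card * Δ + C * y ^ 2 := by
  classical
  obtain ⟨K, hK⟩ := exists_nat_ge (3 / c)
  obtain ⟨C, Y, hkron⟩ := kron K ε δ hε hε1 hδ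
  refine ⟨C + 4, max Y 1, by positivity, ?_⟩
  intro y hy D Δ hD hΔ len P hP
  have hyY : Y ≤ y := (le_max_left _ _).trans hy
  have hy1 : 1 ≤ y := (le_max_right _ _).trans hy
  have hy0 : 0 < y := by linarith
  have hy2 : 1 ≤ y ^ 2 := by nlinarith
  have hD0 : 0 < D := lt_of_lt_of_le (by positivity) hD
  obtain ⟨W, hW⟩ : ∃ W : ℕ, W = ⌈ε * y ^ 2⌉₊ := ⟨_, rfl⟩
  have hW1 : ε * y ^ 2 ≤ W := by rw [hW]; exact Nat.le_ceil _
  have hW2 : (W : ℝ) < ε * y ^ 2 + 1 := by rw [hW]; exact Nat.ceil_lt_add_one (by positivity)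
  have hKΔ : 3 * y ^ 2 ≤ K * (Δ : ℝ) := by
    rw [div_le_iff₀ hc] at hK
    calc 3 * y ^ 2 ≤ (K * c) * y ^ 2 := by gcongr
      _ = K * (c * y ^ 2) := by ring
      _ ≤ K * Δ := by gcongr
  -- the greedy procedure
  have hgreedy : ∀ k : ℕ, k + C ≤ P.card → ∃ (A : Finset ℕ) (s : ℕ → ℤ) (idx : ℕ → ℕ),
      State P len Δ W k A s idx := by
    intro k
    induction k with
    | zero =>
      intro _
      refine ⟨∅, fun _ => 0, fun _ => 0, empty_subset _, card_empty, ?_, ?_, ?_⟩ <;> simp
    | succ k ih =>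
      intro hk
      obtain ⟨A, s, idx, hAP, hAk, hinj, hpos, hdis⟩ := ih (by omega)
      obtain ⟨S, hS⟩ : ∃ S, S = A.filter (fun d => k ≤ idx d + K) := ⟨_, rfl⟩
      have hSA : S ⊆ A := by rw [hS]; exact filter_subset _ _
      have hSK : S.card ≤ K := by
        have h1 : S.card ≤ (Ico (k - K) k).card := by
          apply card_le_card_of_injOn idx
          · intro d hd
            have hd' : d ∈ S := hd
            rw [hS, mem_filter] at hd'
            have := (hpos d hd'.1).1
            show idx d ∈ ((Ico (k - K) k : Finset ℕ) : Set ℕ)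
            rw [mem_coe, mem_Ico]
            omega
          · intro d hd e he hde
            exact hinj d (hSA hd) e (hSA he) hde
        rw [Nat.card_Ico] at h1
        omega
      have hEcard : C < (P \ A).card := by
        rw [card_sdiff_of_subset hAP, hAk]
        omega
      obtain ⟨e, he, t, ht1, ht2, ht⟩ := hkron y hyY S hSK
        (fun d hd => by
          have h := hP d (hAP (hSA hd))
          exact ⟨h.1, hD.trans h.2.1, h.2.2.1⟩) s ((k * Δ : ℕ) : ℤ) W hW1 (P \ A)
        (fun e he => by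
          rw [mem_sdiff] at he
          have h := hP e he.1
          exact ⟨h.1, hD.trans h.2.1, h.2.2.1, fun h2 => he.2 (hSA h2)⟩) hEcard
      rw [mem_sdiff] at he
      obtain ⟨heP, heA⟩ := he
      obtain ⟨hep, heD, hey, -, -⟩ := hP e heP
      have he0 : (0 : ℝ) < e := by exact_mod_cast hep.pos
      -- the new progression avoids the old ones
      have hnew : ∀ d ∈ A, ∀ i j : ℕ, 1 ≤ i → i ≤ len d → 1 ≤ j → s d + i * d ≠ t + j * e := by
        intro d hd i j hi hi' hj heq
        obtain ⟨hdp, hdD, hdy, hspan, hcond⟩ := hP d (hAP hd)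
        obtain ⟨hidx, hs1, hs2⟩ := hpos d hd
        have hd0 : (0 : ℝ) < d := by exact_mod_cast hdp.pos
        have hle : (s d : ℝ) + i * d ≤ idx d * Δ + W + len d * d := by
          have h1 : (s d : ℝ) ≤ idx d * Δ + W := by exact_mod_cast hs2
          have h2 : (i : ℝ) * d ≤ len d * d := by
            apply mul_le_mul_of_nonneg_right _ hd0.le
            exact_mod_cast hi'
          linarith
        have heqr : (s d : ℝ) + i * d = t + j * e := by exact_mod_cast heq
        have ht1r : (k : ℝ) * Δ ≤ t := by exact_mod_cast ht1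
        have hΔ0 : (0 : ℝ) ≤ Δ := Nat.cast_nonneg _
        by_cases hdS : d ∈ S
        · obtain ⟨u, hu1, hu2, hudvd⟩ := ht d hdS
          have h1 : (d : ℤ) ∣ e * (u + j) := by
            have h2 : (e : ℤ) * (u + j) = i * d - (t - s d - e * u) := by
              linear_combination (-1 : ℤ) * heq
            rw [h2]
            exact dvd_sub (dvd_mul_left _ _) hudvd
          have h2 : d ∣ e * (u + j) := by exact_mod_cast h1
          have h3 : d ∣ u + j := by
            rcases hdp.dvd_mul.1 h2 with h | h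
            · exfalso
              have h4 := (Nat.prime_dvd_prime_iff_eq hdp hep).1 h
              exact heA (h4 ▸ hd)
            · exact h
          have h4 : d ≤ u + j := Nat.le_of_dvd (by omega) h3
          have h5 : (d : ℝ) ≤ u + j := by exact_mod_cast h4
          have h6 : (1 - ε) * d < j := by linarith
          have h7 : (1 - ε) * D ^ 2 < j * e := by
            calc (1 - ε) * D ^ 2 = (1 - ε) * D * D := by ring
              _ ≤ (1 - ε) * d * e := by
                  apply mul_le_mul _ heD hD0.le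
                  · apply mul_nonneg (by linarith) hd0.le
                  · apply mul_le_mul_of_nonneg_left hdD (by linarith)
              _ < j * e := mul_lt_mul_of_pos_right h6 he0
          have h8 : (idx d : ℝ) * Δ ≤ (k - 1) * Δ := by
            apply mul_le_mul_of_nonneg_right _ hΔ0
            have : (idx d : ℝ) + 1 ≤ k := by exact_mod_cast hidx
            linarith
          nlinarith
        · have h1 : idx d + K + 1 ≤ k := by
            rw [hS, mem_filter] at hdS
            by_contra h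
            exact hdS ⟨hd, by omega⟩
          have h2 : (idx d : ℝ) + K + 1 ≤ k := by exact_mod_cast h1
          have h3 : (idx d : ℝ) * Δ + K * Δ + Δ ≤ k * Δ := by
            calc (idx d : ℝ) * Δ + K * Δ + Δ = (idx d + K + 1) * Δ := by ring
              _ ≤ k * Δ := mul_le_mul_of_nonneg_right h2 hΔ0
          have h4 : (0 : ℝ) < j * e := by
            have : (1 : ℝ) ≤ j := by exact_mod_cast hj
            positivity
          have h5 : ε * y ^ 2 ≤ y ^ 2 := by nlinarith
          nlinarith
      refine ⟨insert e A, Function.update s e t, Function.update idx e k, ?_, ?_, ?_, ?_, ?_⟩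
      · exact insert_subset heP hAP
      · rw [card_insert_of_notMem heA, hAk]
      · intro d hd d' hd' hdd
        rw [mem_insert] at hd hd'
        rcases hd with rfl | hd <;> rcases hd' with rfl | hd'
        · rfl
        · have hne : d' ≠ d := fun h => heA (h ▸ hd')
          rw [Function.update_self, Function.update_of_ne hne] at hdd
          have := (hpos d' hd').1
          omega
        · have hne : d ≠ d' := fun h => heA (h ▸ hd)
          rw [Function.update_self, Function.update_of_ne hne] at hdd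
          have := (hpos d hd).1
          omega
        · have hne : d ≠ e := fun h => heA (h ▸ hd)
          have hne' : d' ≠ e := fun h => heA (h ▸ hd')
          rw [Function.update_of_ne hne, Function.update_of_ne hne'] at hdd
          exact hinj d hd d' hd' hdd
      · intro d hd
        rw [mem_insert] at hd
        rcases hd with rfl | hd
        · rw [Function.update_self, Function.update_self]
          refine ⟨by omega, ht1, ?_⟩
          push_cast at ht2 ⊢
          linarith
        · have hne : d ≠ e := fun h => heA (h ▸ hd)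
          rw [Function.update_of_ne hne, Function.update_of_ne hne]
          have := hpos d hd
          exact ⟨by omega, this.2⟩
      · intro d hd d' hd' hdd i j hi hi' hj hj'
        rw [mem_insert] at hd hd'
        rcases hd with rfl | hd <;> rcases hd' with rfl | hd'
        · exact absurd rfl hdd
        · rw [Function.update_self, Function.update_of_ne hdd.symm]
          exact fun h => hnew d' hd' j i hj hj' hi h.symm
        · rw [Function.update_self, Function.update_of_ne hdd]
          exact hnew d hd i j hi hi' hj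
        · have hne : d ≠ e := fun h => heA (h ▸ hd)
          have hne' : d' ≠ e := fun h => heA (h ▸ hd')
          rw [Function.update_of_ne hne, Function.update_of_ne hne']
          exact hdis d hd d' hd' hdd i j hi hi' hj hj'
  -- the end
  obtain ⟨A, s, idx, hAP, hAk, hinj, hpos, hdis⟩ : ∃ (A : Finset ℕ) (s : ℕ → ℤ) (idx : ℕ → ℕ),
      State P len Δ W (P.card - C) A s idx := by
    rcases le_total C P.card with h | h
    · exact hgreedy _ (by omega)
    · rw [Nat.sub_eq_zero_of_le h]
      refine ⟨∅, fun _ => 0, fun _ => 0, empty_subset _, card_empty, ?_, ?_, ?_⟩ <;> simp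
  obtain ⟨m₁, hm₁⟩ : ∃ m₁ : ℕ, m₁ = P.card * Δ + W + ⌈y ^ 2⌉₊ := ⟨_, rfl⟩
  have hpack₁ : Packs A len m₁ := by
    refine ⟨s, ?_, hdis⟩
    intro d hd i hi hi'
    obtain ⟨hdp, -, -, hspan, -⟩ := hP d (hAP hd)
    obtain ⟨hidx, hs1, hs2⟩ := hpos d hd
    have hd0 : 0 < d := hdp.pos
    constructor
    · have h1 : (1 : ℤ) ≤ i * d := by
        have : 1 ≤ i * d := Nat.one_le_iff_ne_zero.2 (by positivity)
        exact_mod_cast this
      have h2 : (0 : ℤ) ≤ ((idx d * Δ : ℕ) : ℤ) := Int.natCast_nonneg _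
      linarith
    · have h1 : i * d ≤ ⌈y ^ 2⌉₊ := by
        have h2 : i * d ≤ len d * d := Nat.mul_le_mul_right d hi'
        have h3 : ((len d * d : ℕ) : ℝ) ≤ (⌈y ^ 2⌉₊ : ℝ) := by
          push_cast
          exact hspan.trans (Nat.le_ceil _)
        exact h2.trans (by exact_mod_cast h3)
      have h4 : idx d * Δ ≤ P.card * Δ := Nat.mul_le_mul_right _ (by omega)
      have h5 : s d + ((i * d : ℕ) : ℤ) ≤ ((P.card * Δ + W + ⌈y ^ 2⌉₊ : ℕ) : ℤ) := by
        have h6 : s d ≤ ((P.card * Δ + W : ℕ) : ℤ) := hs2.trans (by exact_mod_cast Nat.add_le_add_right h4 W)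
        have h7 : ((i * d : ℕ) : ℤ) ≤ ((⌈y ^ 2⌉₊ : ℕ) : ℤ) := by exact_mod_cast h1
        calc s d + ((i * d : ℕ) : ℤ) ≤ ((P.card * Δ + W : ℕ) : ℤ) + ((⌈y ^ 2⌉₊ : ℕ) : ℤ) := add_le_add h6 h7
          _ = ((P.card * Δ + W + ⌈y ^ 2⌉₊ : ℕ) : ℤ) := by push_cast; ring
      rw [hm₁]
      push_cast at h5 ⊢
      exact h5
  have hpack₂ : Packs (P \ A) len (∑ d ∈ P \ A, len d * d) :=
    packs_trivial _ (fun d hd => (hP d (mem_sdiff.1 hd).1).1.pos) len
  have hunion := packs_union hpack₁ hpack₂
  rw [union_sdiff_of_subset hAP] at hunion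
  refine ⟨_, hunion, ?_⟩
  have hcard2 : (((P \ A).card : ℕ) : ℝ) ≤ C := by
    have : (P \ A).card ≤ C := by
      rw [card_sdiff_of_subset hAP, hAk]
      omega
    exact_mod_cast this
  have hsum2 : ((∑ d ∈ P \ A, len d * d : ℕ) : ℝ) ≤ C * y ^ 2 := by
    push_cast
    calc ∑ d ∈ P \ A, (len d : ℝ) * d ≤ ∑ d ∈ P \ A, y ^ 2 :=
          sum_le_sum fun d hd => (hP d (mem_sdiff.1 hd).1).2.2.2.1
      _ = (P \ A).card * y ^ 2 := by rw [sum_const, nsmul_eq_mul]
      _ ≤ C * y ^ 2 := mul_le_mul_of_nonneg_right hcard2 (by positivity)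
  have hceil : ((⌈y ^ 2⌉₊ : ℕ) : ℝ) < y ^ 2 + 1 := Nat.ceil_lt_add_one (by positivity)
  rw [hm₁]
  push_cast at hsum2 ⊢
  have h5 : ε * y ^ 2 ≤ y ^ 2 := by nlinarith
  nlinarith

end Pool.Agent.X25.Pk
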