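import Pool.Agent.X25.Pk.Lower

/-!
The asymptotic formulas for packing progressions with prime differences, and a lower bound for all
differences.
-/

set_option autoImplicit false

namespace Pool.Agent.X25.Pk

open Finset Filter Topology

/-- `∑_{p ≤ y} (y p - p²)` -/
noncomputable def S1 (y : ℝ) : ℝ := ∑ p ∈ Pr y, (y * p - (p : ℝ) ^ 2)

/-- `∑_{p ≤ y} (y² - p²)` -/
noncomputable def S2 (y : ℝ) : ℝ := ∑ p ∈ Pr y, (y ^ 2 - (p : ℝ) ^ 2)

lemma S1_lim : Tendsto (fun y => S1 y * Real.log y / y ^ 3) atTop (𝓝 (1 / 6)) := by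
  have h := sum_p1.sub sum_p2
  norm_num at h
  refine h.congr' ?_
  filter_upwards [eventually_gt_atTop 0] with y hy
  unfold S1
  rw [sum_sub_distrib, ← mul_sum]
  field_simp

lemma S2_lim : Tendsto (fun y => S2 y * Real.log y / y ^ 3) atTop (𝓝 (2 / 3)) := by
  have h := sum_p0.sub sum_p2
  norm_num at h
  refine h.congr' ?_
  filter_upwards [eventually_gt_atTop 0] with y hy
  unfold S2
  rw [sum_sub_distrib, sum_const, nsmul_eq_mul]
  field_simp

/-- the least length -/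
noncomputable def ML (D : Finset ℕ) (len : ℕ → ℕ) : ℕ := sInf {m : ℕ | Packs D len m}

lemma ML_spec (D : Finset ℕ) (hD : ∀ d ∈ D, 0 < d) (len : ℕ → ℕ) : Packs D len (ML D len) :=
  Nat.sInf_mem (s := {m : ℕ | Packs D len m}) ⟨_, packs_trivial D hD len⟩

lemma ML_le (D : Finset ℕ) (len : ℕ → ℕ) (m : ℕ) (h : Packs D len m) : ML D len ≤ m :=
  Nat.sInf_le h

lemma Pr_coprime {y : ℝ} (hy : 0 ≤ y) (s : ℕ → ℤ) : ∀ d ∈ Pr y, ∀ e ∈ Pr y, d ≠ e →
    ((Nat.gcd d e : ℕ) : ℤ) ∣ s e - s d := by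
  intro d hd e he hde
  have h1 := ((mem_Pr hy).1 hd).1
  have h2 := ((mem_Pr hy).1 he).1
  have h3 : Nat.gcd d e = 1 := (Nat.coprime_primes h1 h2).2 hde
  rw [h3]
  simp

lemma Pr_pos {y : ℝ} (hy : 0 ≤ y) : ∀ d ∈ Pr y, 0 < d := fun d hd => ((mem_Pr hy).1 hd).1.pos

theorem prob1 : Tendsto (fun n : ℕ => (ML (Pr n) (fun _ => n) : ℝ) * Real.log n / (n : ℝ) ^ 3)
    atTop (𝓝 (1 / 6)) := by
  apply squeeze S1 (1 / 6) 1 S1_lim (fun n : ℕ => (ML (Pr n) (fun _ => n) : ℝ)) (fun n : ℕ => (n : ℝ))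
    tendsto_natCast_atTop_atTop
  · filter_upwards [eventually_ge_atTop 1] with n hn
    have hn1 : (1 : ℝ) ≤ n := by exact_mod_cast hn
    obtain ⟨s, h1, h2⟩ := ML_spec (Pr n) (Pr_pos (Nat.cast_nonneg n)) (fun _ => n)
    have hsub : Pr ((n : ℝ) - 1) ⊆ Pr n := by
      intro p hp
      obtain ⟨h3, h4⟩ := (mem_Pr (by linarith)).1 hp
      exact (mem_Pr (by linarith)).2 ⟨h3, by linarith⟩
    unfold S1
    apply lower_full n _ (Pr ((n : ℝ) - 1)) s
    · intro d hd
      obtain ⟨h3, h4⟩ := (mem_Pr (by linarith)).1 hd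
      refine ⟨h3.pos, ?_⟩
      have : ((d + 1 : ℕ) : ℝ) ≤ n := by push_cast; linarith
      exact_mod_cast this
    · intro d hd
      exact h1 d (hsub hd)
    · intro d hd e he
      exact h2 d (hsub hd) e (hsub he)
    · exact Pr_coprime (by linarith) s
  · intro η hη
    obtain ⟨Y, hY1, hY⟩ := upper η hη
    obtain ⟨N, hN⟩ := exists_nat_ge Y
    filter_upwards [eventually_ge_atTop N] with n hn
    have hnY : Y ≤ n := hN.trans (by exact_mod_cast hn)
    have hn0 : (0 : ℝ) < n := by linarith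
    obtain ⟨m, hm1, hm2⟩ := hY n hnY id (fun x h1 h2 => ⟨le_rfl, h2⟩)
      (fun x x' h => ⟨h, by simp⟩) (fun _ => n) (fun p hp => by
        simp only [id]
        apply le_of_eq
        field_simp)
    have h3 : (ML (Pr n) (fun _ => n) : ℝ) ≤ m := by exact_mod_cast ML_le _ _ m hm1
    refine h3.trans (hm2.trans (le_of_eq ?_))
    congr 1
    unfold S1
    refine sum_congr rfl fun p _ => ?_
    simp only [id]
    field_simp

theorem prob2 : Tendsto (fun n : ℕ => (ML (Pr (Real.sqrt n)) (fun d => n / d) : ℝ) * Real.log n /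
    (n : ℝ) ^ (3 / 2 : ℝ)) atTop (𝓝 (4 / 3)) := by
  have hy : Tendsto (fun n : ℕ => Real.sqrt n) atTop atTop :=
    Real.tendsto_sqrt_atTop.comp tendsto_natCast_atTop_atTop
  have h := squeeze S2 (2 / 3) 2 S2_lim (fun n : ℕ => (ML (Pr (Real.sqrt n)) (fun d => n / d) : ℝ))
    (fun n : ℕ => Real.sqrt n) hy ?_ ?_
  · have h2 := h.const_mul 2
    norm_num at h2
    refine h2.congr' ?_
    filter_upwards [eventually_ge_atTop 1] with n hn
    have hn1 : (0 : ℝ) < n := by exact_mod_cast hn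
    have e1 : Real.log (Real.sqrt n) = Real.log n / 2 := Real.log_sqrt hn1.le
    have e2 : (n : ℝ) ^ (3 / 2 : ℝ) = Real.sqrt n ^ 3 := by
      rw [Real.sqrt_eq_rpow, ← Real.rpow_natCast, ← Real.rpow_mul hn1.le]
      norm_num
    rw [e1, e2]
    ring
  · filter_upwards [eventually_ge_atTop 4] with n hn
    have hn4 : (4 : ℝ) ≤ n := by exact_mod_cast hn
    have hs2 : 2 ≤ Real.sqrt n := by
      rw [show (2 : ℝ) = Real.sqrt 4 by rw [show (4 : ℝ) = 2 ^ 2 by norm_num, Real.sqrt_sq (by norm_num)]]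
      exact Real.sqrt_le_sqrt hn4
    have hsq : Real.sqrt n * Real.sqrt n = n := Real.mul_self_sqrt (by linarith)
    obtain ⟨s, h1, h2⟩ := ML_spec (Pr (Real.sqrt n)) (Pr_pos (Real.sqrt_nonneg _)) (fun d => n / d)
    have hsub : Pr (Real.sqrt n - 2) ⊆ Pr (Real.sqrt n) := by
      intro p hp
      obtain ⟨h3, h4⟩ := (mem_Pr (by linarith)).1 hp
      exact (mem_Pr (by linarith)).2 ⟨h3, by linarith⟩
    have h5 := lower_sqrt n (ML (Pr (Real.sqrt n)) (fun d => n / d)) (Pr (Real.sqrt n - 2)) s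
      (fun d hd => by
        obtain ⟨h3, h4⟩ := (mem_Pr (by linarith)).1 hd
        refine ⟨h3.pos, ?_⟩
        have h6 : (d : ℝ) + 2 ≤ Real.sqrt n := by linarith
        have : (((d + 2) ^ 2 : ℕ) : ℝ) ≤ n := by
          push_cast
          have h7 : (0 : ℝ) ≤ d := Nat.cast_nonneg d
          nlinarith
        exact_mod_cast this)
      (fun d hd => h1 d (hsub hd)) (fun d hd e he => h2 d (hsub hd) e (hsub he))
      (Pr_coprime (by linarith) s)
    refine le_trans ?_ h5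
    unfold S2
    refine sum_le_sum fun p hp => ?_
    obtain ⟨h3, h4⟩ := (mem_Pr (by linarith)).1 hp
    have h7 : (0 : ℝ) ≤ p := Nat.cast_nonneg p
    nlinarith
  · intro η hη
    obtain ⟨Y, hY1, hY⟩ := upper η hη
    filter_upwards [hy.eventually_ge_atTop Y, eventually_ge_atTop 1] with n hnY hn1
    have hn0 : (0 : ℝ) < n := by exact_mod_cast hn1
    have hs0 : 0 < Real.sqrt n := Real.sqrt_pos.2 hn0
    have hsq : Real.sqrt n ^ 2 = n := Real.sq_sqrt hn0.le
    obtain ⟨m, hm1, hm2⟩ := hY (Real.sqrt n) hnY (fun _ => 1) (fun x h1 h2 => ⟨h2, le_rfl⟩)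
      (fun x x' h => ⟨le_rfl, by linarith⟩) (fun d => n / d) (fun p hp => by
        rw [mul_one, hsq]
        exact_mod_cast Nat.div_mul_le_self n p)
    have h3 : (ML (Pr (Real.sqrt n)) (fun d => n / d) : ℝ) ≤ m := by exact_mod_cast ML_le _ _ m hm1
    refine h3.trans (hm2.trans (le_of_eq ?_))
    congr 1
    unfold S2
    refine sum_congr rfl fun p _ => ?_
    field_simp

end Pool.Agent.X25.Pk
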