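import Mathlib

/-!
A quantitative form of Kronecker's theorem by means of the kernel `cos ^ (2 M)`.
-/

set_option autoImplicit false

namespace Pool.Agent.X25.Pk

open Finset

/-- `e(x) = exp(2 π i x)` -/
noncomputable def ee (x : ℝ) : ℂ := Complex.exp (2 * Real.pi * x * Complex.I)

lemma ee_add (x y : ℝ) : ee (x + y) = ee x * ee y := by
  unfold ee
  rw [← Complex.exp_add]
  congr 1
  push_cast
  ring

lemma ee_zero : ee 0 = 1 := by
  unfold ee
  simp

lemma ee_norm (x : ℝ) : ‖ee x‖ = 1 := by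
  unfold ee
  have : (2 * (Real.pi : ℂ) * x * Complex.I) = ((2 * Real.pi * x : ℝ) : ℂ) * Complex.I := by
    push_cast; ring
  rw [this, Complex.norm_exp_ofReal_mul_I]

lemma ee_neg_mul (x : ℝ) : ee x * ee (-x) = 1 := by
  rw [← ee_add, add_neg_cancel, ee_zero]

lemma ee_int (m : ℤ) : ee m = 1 := by
  unfold ee
  rw [Complex.exp_eq_one_iff]
  exact ⟨m, by push_cast; ring⟩

lemma ee_nat_mul (n : ℕ) (x : ℝ) : ee (n * x) = ee x ^ n := by
  unfold ee
  rw [← Complex.exp_nat_mul]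
  congr 1
  push_cast
  ring

lemma ee_sum {ι : Type} (s : Finset ι) (f : ι → ℝ) : ee (∑ i ∈ s, f i) = ∏ i ∈ s, ee (f i) := by
  classical
  induction s using Finset.induction_on with
  | empty => simp [ee_zero]
  | insert a s ha ih => rw [sum_insert ha, prod_insert ha, ee_add, ih]

lemma cos_sq_eq (x : ℝ) : ((Real.cos (Real.pi * x) ^ 2 : ℝ) : ℂ) = (1 + ee x) * (1 + ee (-x)) / 4 := by
  have h1 : (1 + ee x) * (1 + ee (-x)) = 2 + (ee x + ee (-x)) := by
    have := ee_neg_mul x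
    linear_combination this
  have h2 : ee x + ee (-x) = 2 * Complex.cos (2 * Real.pi * x) := by
    unfold ee
    rw [Complex.cos]
    push_cast
    have : (2 * (Real.pi : ℂ) * -x * Complex.I) = -(2 * (Real.pi : ℂ) * x) * Complex.I := by ring
    rw [this]
    ring
  rw [h1, h2, Complex.ofReal_pow, Complex.ofReal_cos]
  push_cast
  rw [show (2 * (Real.pi : ℂ) * x) = 2 * (Real.pi * x) by ring, Complex.cos_two_mul]
  ring

/-- coefficients of the kernel -/
noncomputable def gg (M : ℕ) (q : ℕ × ℕ) : ℝ := (M.choose q.1 * M.choose q.2 : ℕ) / 4 ^ M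

lemma gg_nonneg (M : ℕ) (q : ℕ × ℕ) : 0 ≤ gg M q := by unfold gg; positivity

lemma kern_expand (M : ℕ) (x : ℝ) : (((Real.cos (Real.pi * x) ^ 2) ^ M : ℝ) : ℂ) =
    ∑ q ∈ range (M + 1) ×ˢ range (M + 1), (gg M q : ℂ) * ee (((q.1 : ℝ) - q.2) * x) := by
  rw [Complex.ofReal_pow, cos_sq_eq, div_pow, mul_pow, add_comm (1 : ℂ) (ee x),
    add_comm (1 : ℂ) (ee (-x)), add_pow, add_pow, sum_mul_sum, sum_product, sum_div]
  refine sum_congr rfl fun a _ => ?_
  rw [sum_div]
  refine sum_congr rfl fun b _ => ?_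
  have h1 : ee (((a : ℝ) - b) * x) = ee x ^ a * ee (-x) ^ b := by
    rw [← ee_nat_mul, ← ee_nat_mul, ← ee_add]
    congr 1
    ring
  rw [h1]
  unfold gg
  push_cast
  rw [one_pow, one_pow]
  ring

lemma gg_sum (M : ℕ) : ∑ q ∈ range (M + 1) ×ˢ range (M + 1), gg M q = 1 := by
  unfold gg
  rw [← sum_div, sum_product]
  have h : ∑ a ∈ range (M + 1), ∑ b ∈ range (M + 1), ((M.choose a * M.choose b : ℕ) : ℝ) = 4 ^ M := by
    have h2 : ∑ a ∈ range (M + 1), (M.choose a : ℝ) = 2 ^ M := by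
      exact_mod_cast Nat.sum_range_choose M
    calc ∑ a ∈ range (M + 1), ∑ b ∈ range (M + 1), ((M.choose a * M.choose b : ℕ) : ℝ)
        = (∑ a ∈ range (M + 1), (M.choose a : ℝ)) * ∑ b ∈ range (M + 1), (M.choose b : ℝ) := by
          rw [sum_mul_sum]
          push_cast
          rfl
      _ = 4 ^ M := by
          rw [h2, ← mul_pow]
          norm_num
  rw [h]
  exact div_self (by positivity)

/-- the diagonal -/
def dg (M : ℕ) : Finset (ℕ × ℕ) := (range (M + 1) ×ˢ range (M + 1)).filter (fun q => q.1 = q.2)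

lemma gg_diag (M : ℕ) : 1 / ((M : ℝ) + 1) ≤ ∑ q ∈ dg M, gg M q := by
  have h1 : ∑ q ∈ dg M, gg M q = ∑ a ∈ range (M + 1), gg M (a, a) := by
    unfold dg
    rw [sum_filter, sum_product]
    refine sum_congr rfl fun a ha => ?_
    rw [sum_ite_eq (range (M + 1)) a (fun b => gg M (a, b)), if_pos ha]
  rw [h1]
  unfold gg
  rw [← sum_div, div_le_div_iff₀ (by positivity) (by positivity), one_mul]
  have h2 : (∑ a ∈ range (M + 1), (M.choose a : ℝ)) ^ 2 ≤
      ((range (M + 1)).card : ℝ) * ∑ a ∈ range (M + 1), (M.choose a : ℝ) ^ 2 :=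
    sq_sum_le_card_mul_sum_sq
  have h3 : ∑ a ∈ range (M + 1), (M.choose a : ℝ) = 2 ^ M := by
    exact_mod_cast Nat.sum_range_choose M
  rw [h3, card_range, ← pow_mul, mul_comm M 2, pow_mul] at h2
  norm_num at h2
  calc (4 : ℝ) ^ M ≤ ((M : ℝ) + 1) * ∑ a ∈ range (M + 1), (M.choose a : ℝ) ^ 2 := h2
    _ = (∑ a ∈ range (M + 1), ((M.choose a * M.choose a : ℕ) : ℝ)) * ((M : ℝ) + 1) := by
        rw [mul_comm]
        congr 1
        refine sum_congr rfl fun a _ => ?_
        push_cast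
        ring

/-- the frequencies of a term -/
def hh {ι : Type} (p : ι → ℕ × ℕ) (i : ι) : ℤ := ((p i).1 : ℤ) - (p i).2

theorem kern_lower {ι : Type} [Fintype ι] [DecidableEq ι] (θ φ : ι → ℝ) (N M : ℕ) (B : ℝ)
    (hB : ∀ h : ι → ℤ, h ≠ 0 → (∀ i, |h i| ≤ M) →
      ‖∑ t ∈ range N, ee ((t : ℝ) * ∑ i, (h i : ℝ) * θ i)‖ ≤ B) (hB0 : 0 ≤ B) :
    (N : ℝ) * (1 / ((M : ℝ) + 1)) ^ (Fintype.card ι) - B ≤
      ∑ t ∈ range N, ∏ i, (Real.cos (Real.pi * (θ i * t + φ i)) ^ 2) ^ M := by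
  classical
  -- expansion
  have hexp : ∀ t : ℕ, ((∏ i, (Real.cos (Real.pi * (θ i * t + φ i)) ^ 2) ^ M : ℝ) : ℂ) =
      ∑ p ∈ Fintype.piFinset (fun _ : ι => range (M + 1) ×ˢ range (M + 1)),
        ((∏ i, gg M (p i) : ℝ) : ℂ) * (ee (∑ i, (hh p i : ℝ) * φ i) *
          ee ((t : ℝ) * ∑ i, (hh p i : ℝ) * θ i)) := by
    intro t
    rw [Complex.ofReal_prod]
    rw [prod_congr rfl (fun i _ => kern_expand M (θ i * t + φ i)), prod_univ_sum]
    refine sum_congr rfl fun p _ => ?_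
    rw [prod_mul_distrib, Complex.ofReal_prod]
    congr 1
    rw [← ee_add, ← ee_sum]
    congr 1
    rw [mul_sum, ← sum_add_distrib]
    refine sum_congr rfl fun i _ => ?_
    unfold hh
    push_cast
    ring
  obtain ⟨P, hP⟩ : ∃ P, P = Fintype.piFinset (fun _ : ι => range (M + 1) ×ˢ range (M + 1)) := ⟨_, rfl⟩
  rw [← hP] at hexp
  set G : (ι → ℕ × ℕ) → ℝ := fun p => ∏ i, gg M (p i) with hG
  have hGn : ∀ p, 0 ≤ G p := fun p => prod_nonneg fun i _ => gg_nonneg M _
  have hGsum : ∑ p ∈ P, G p = 1 := by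
    rw [hG, hP, ← prod_univ_sum (fun _ : ι => range (M + 1) ×ˢ range (M + 1)) (fun _ q => gg M q)]
    rw [prod_congr rfl (fun i _ => gg_sum M)]
    simp
  have hGdiag : (1 / ((M : ℝ) + 1)) ^ (Fintype.card ι) ≤ ∑ p ∈ P.filter (fun p => hh p = 0), G p := by
    have e1 : P.filter (fun p => hh p = 0) = Fintype.piFinset (fun _ : ι => dg M) := by
      ext p
      rw [mem_filter, hP, Fintype.mem_piFinset, Fintype.mem_piFinset]
      constructor
      · rintro ⟨h1, h2⟩ i
        unfold dg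
        rw [mem_filter]
        refine ⟨h1 i, ?_⟩
        have := congrFun h2 i
        unfold hh at this
        simp only [Pi.zero_apply] at this
        omega
      · intro h1
        refine ⟨fun i => ?_, ?_⟩
        · have := h1 i
          unfold dg at this
          exact (mem_filter.1 this).1
        · funext i
          have := h1 i
          unfold dg at this
          have h3 := (mem_filter.1 this).2
          unfold hh
          simp only [Pi.zero_apply]
          omega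
    rw [e1, hG, ← prod_univ_sum (fun _ : ι => dg M) (fun _ q => gg M q)]
    rw [prod_const, card_univ]
    exact pow_le_pow_left₀ (by positivity) (gg_diag M) _
  -- the sum over t
  set T : ℝ := ∑ t ∈ range N, ∏ i, (Real.cos (Real.pi * (θ i * t + φ i)) ^ 2) ^ M with hT
  have hTc : (T : ℂ) = ∑ p ∈ P, (G p : ℂ) * (ee (∑ i, (hh p i : ℝ) * φ i) *
      ∑ t ∈ range N, ee ((t : ℝ) * ∑ i, (hh p i : ℝ) * θ i)) := by
    rw [hT, Complex.ofReal_sum]
    rw [sum_congr rfl (fun t _ => hexp t), sum_comm]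
    refine sum_congr rfl fun p _ => ?_
    rw [mul_sum, mul_sum]
  have hsplit : (T : ℂ) - ((N * ∑ p ∈ P.filter (fun p => hh p = 0), G p : ℝ) : ℂ) =
      ∑ p ∈ P.filter (fun p => ¬ hh p = 0), (G p : ℂ) * (ee (∑ i, (hh p i : ℝ) * φ i) *
      ∑ t ∈ range N, ee ((t : ℝ) * ∑ i, (hh p i : ℝ) * θ i)) := by
    rw [hTc, ← sum_filter_add_sum_filter_not P (fun p => hh p = 0)]
    have e2 : ∑ p ∈ P.filter (fun p => hh p = 0), (G p : ℂ) * (ee (∑ i, (hh p i : ℝ) * φ i) *
      ∑ t ∈ range N, ee ((t : ℝ) * ∑ i, (hh p i : ℝ) * θ i)) =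
        ((N * ∑ p ∈ P.filter (fun p => hh p = 0), G p : ℝ) : ℂ) := by
      push_cast
      rw [mul_sum]
      refine sum_congr rfl fun p hp => ?_
      have h0 := (mem_filter.1 hp).2
      have e3 : ∀ f : ι → ℝ, ∑ i, (hh p i : ℝ) * f i = 0 := by
        intro f
        refine sum_eq_zero fun i _ => ?_
        rw [h0]
        simp
      rw [e3, e3]
      simp only [mul_zero, ee_zero, sum_const, card_range, nsmul_eq_mul, mul_one]
      ring
    rw [e2]
    ring
  have hnorm : ‖(T : ℂ) - ((N * ∑ p ∈ P.filter (fun p => hh p = 0), G p : ℝ) : ℂ)‖ ≤ B := by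
    rw [hsplit]
    refine (norm_sum_le _ _).trans ?_
    calc ∑ p ∈ P.filter (fun p => ¬ hh p = 0), ‖(G p : ℂ) * (ee (∑ i, (hh p i : ℝ) * φ i) *
          ∑ t ∈ range N, ee ((t : ℝ) * ∑ i, (hh p i : ℝ) * θ i))‖
        ≤ ∑ p ∈ P.filter (fun p => ¬ hh p = 0), G p * B := by
          refine sum_le_sum fun p hp => ?_
          obtain ⟨hpP, hp0⟩ := mem_filter.1 hp
          rw [norm_mul, norm_mul, ee_norm, one_mul, Complex.norm_of_nonneg (hGn p)]
          refine mul_le_mul_of_nonneg_left (hB (hh p) hp0 ?_) (hGn p)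
          intro i
          rw [hP, Fintype.mem_piFinset] at hpP
          have h5 := hpP i
          rw [mem_product, mem_range, mem_range] at h5
          unfold hh
          rw [abs_le]
          constructor <;> omega
      _ = (∑ p ∈ P.filter (fun p => ¬ hh p = 0), G p) * B := by rw [sum_mul]
      _ ≤ 1 * B := by
          refine mul_le_mul_of_nonneg_right ?_ hB0
          rw [← hGsum]
          exact sum_le_sum_of_subset_of_nonneg (filter_subset _ _) fun p _ _ => hGn p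
      _ = B := one_mul B
  rw [← Complex.ofReal_sub, Complex.norm_real, Real.norm_eq_abs] at hnorm
  have h6 := (abs_le.1 hnorm).1
  have h7 : (N : ℝ) * (1 / ((M : ℝ) + 1)) ^ (Fintype.card ι) ≤
      N * ∑ p ∈ P.filter (fun p => hh p = 0), G p :=
    mul_le_mul_of_nonneg_left hGdiag (Nat.cast_nonneg N)
  linarith

lemma cos_fract (x ε : ℝ) (hε : 0 < ε) (hε1 : ε ≤ 1) (h : ¬ (0 < Int.fract x ∧ Int.fract x < ε)) :
    Real.cos (Real.pi * (x - ε / 2)) ^ 2 ≤ (1 + Real.cos (Real.pi * ε)) / 2 := by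
  have hpi := Real.pi_pos
  rw [Real.cos_sq]
  have e1 : 2 * (Real.pi * (x - ε / 2)) = (2 * Real.pi * Int.fract x - Real.pi * ε) + ⌊x⌋ * (2 * Real.pi) := by
    have := Int.fract_add_floor x
    linear_combination (-2 * Real.pi) * this
  rw [e1, Real.cos_add_int_mul_two_pi]
  have hf0 := Int.fract_nonneg x
  have hf1 := Int.fract_lt_one x
  have key : Real.cos (2 * Real.pi * Int.fract x - Real.pi * ε) ≤ Real.cos (Real.pi * ε) := by
    rcases eq_or_lt_of_le hf0 with h0 | h0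
    · rw [← h0]
      simp
    · have h2 : ε ≤ Int.fract x := by
        by_contra h3
        exact h ⟨h0, not_le.1 h3⟩
      have h4 : Real.pi * ε ≤ 2 * Real.pi * Int.fract x - Real.pi * ε := by nlinarith
      rcases le_or_gt (2 * Real.pi * Int.fract x - Real.pi * ε) Real.pi with h5 | h5
      · exact Real.cos_le_cos_of_nonneg_of_le_pi (by positivity) h5 h4
      · rw [← Real.cos_two_pi_sub (2 * Real.pi * Int.fract x - Real.pi * ε)]
        refine Real.cos_le_cos_of_nonneg_of_le_pi (by positivity) (by linarith) ?_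
        nlinarith
  linarith

/-- Kronecker's theorem, quantitative form. -/
theorem kron_box (K : ℕ) (ε : ℝ) (hε : 0 < ε) (hε1 : ε < 1) : ∃ (M : ℕ) (κ : ℝ), 0 < κ ∧
    ∀ (ι : Type) [Fintype ι] [DecidableEq ι], Fintype.card ι ≤ K → ∀ (θ φ : ι → ℝ) (N : ℕ), 0 < N →
    (∀ h : ι → ℤ, h ≠ 0 → (∀ i, |h i| ≤ M) →
      ‖∑ t ∈ range N, ee ((t : ℝ) * ∑ i, (h i : ℝ) * θ i)‖ ≤ κ * N) →
    ∃ t < N, ∀ i, 0 < Int.fract (θ i * t + φ i) ∧ Int.fract (θ i * t + φ i) < ε := by
  obtain ⟨ρ, hρ⟩ : ∃ ρ : ℝ, ρ = (1 + Real.cos (Real.pi * ε)) / 2 := ⟨_, rfl⟩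
  have hpi := Real.pi_pos
  have hcos1 : Real.cos (Real.pi * ε) < 1 := by
    have h := Real.cos_lt_cos_of_nonneg_of_le_pi (le_refl (0 : ℝ)) (show Real.pi * ε ≤ Real.pi by nlinarith)
      (show 0 < Real.pi * ε by positivity)
    rwa [Real.cos_zero] at h
  have hcos2 := Real.neg_one_le_cos (Real.pi * ε)
  have hρ0 : 0 ≤ ρ := by rw [hρ]; linarith
  have hρ1 : ρ < 1 := by rw [hρ]; linarith
  -- choice of M
  have hlim : Filter.Tendsto (fun m : ℕ => (2 * (2:ℝ) ^ K) * ((m : ℝ) ^ K * ρ ^ m)) Filter.atTop (nhds 0) := by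
    have h := tendsto_pow_const_mul_const_pow_of_abs_lt_one K (show |ρ| < 1 by rw [abs_of_nonneg hρ0]; exact hρ1)
    have h2 := h.const_mul (2 * (2:ℝ) ^ K)
    rwa [mul_zero] at h2
  obtain ⟨M, hM1, hM⟩ : ∃ M : ℕ, 1 ≤ M ∧ 2 * ((M : ℝ) + 1) ^ K * ρ ^ M < 1 := by
    have h1 := (hlim.eventually (gt_mem_nhds (show (0 : ℝ) < 1 by norm_num))).and
      (Filter.eventually_ge_atTop 1)
    obtain ⟨M, hM, hM1⟩ := h1.exists
    refine ⟨M, hM1, lt_of_le_of_lt ?_ hM⟩
    have h3 : ((M : ℝ) + 1) ^ K ≤ 2 ^ K * (M : ℝ) ^ K := by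
      rw [← mul_pow]
      have : (1 : ℝ) ≤ M := by exact_mod_cast hM1
      exact pow_le_pow_left₀ (by positivity) (by linarith) _
    calc 2 * ((M : ℝ) + 1) ^ K * ρ ^ M ≤ 2 * (2 ^ K * (M : ℝ) ^ K) * ρ ^ M := by gcongr
      _ = _ := by ring
  refine ⟨M, (1 / ((M : ℝ) + 1)) ^ K / 2, by positivity, ?_⟩
  intro ι _ _ hcard θ φ N hN hB
  by_contra hcon
  push Not at hcon
  have hlow := kern_lower θ (fun i => φ i - ε / 2) N M ((1 / ((M : ℝ) + 1)) ^ K / 2 * N) hB (by positivity)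
  have hup : ∑ t ∈ range N, ∏ i, (Real.cos (Real.pi * (θ i * t + (φ i - ε / 2))) ^ 2) ^ M ≤ N * ρ ^ M := by
    calc _ ≤ ∑ t ∈ range N, ρ ^ M := by
          refine sum_le_sum fun t ht => ?_
          obtain ⟨i, hi⟩ := hcon t (mem_range.1 ht)
          have h1 : Real.cos (Real.pi * (θ i * t + (φ i - ε / 2))) ^ 2 ≤ ρ := by
            rw [hρ, show θ i * t + (φ i - ε / 2) = (θ i * t + φ i) - ε / 2 by ring]
            apply cos_fract _ _ hε hε1.le
            rintro ⟨h2, h3⟩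
            exact absurd h3 (not_lt.2 (hi h2))
          rw [← mul_prod_erase univ _ (mem_univ i)]
          have h2 : ∏ j ∈ univ.erase i, (Real.cos (Real.pi * (θ j * t + (φ j - ε / 2))) ^ 2) ^ M ≤ 1 := by
            apply prod_le_one
            · intro j _; positivity
            · intro j _
              apply pow_le_one₀ (by positivity)
              exact Real.cos_sq_le_one _
          calc _ ≤ ρ ^ M * 1 := by
                apply mul_le_mul _ h2 (prod_nonneg fun j _ => by positivity) (by positivity)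
                exact pow_le_pow_left₀ (by positivity) h1 _
            _ = ρ ^ M := mul_one _
      _ = N * ρ ^ M := by rw [sum_const, card_range, nsmul_eq_mul]
  have hN0 : (0 : ℝ) < N := by exact_mod_cast hN
  have hle : (1 / ((M : ℝ) + 1)) ^ K ≤ (1 / ((M : ℝ) + 1)) ^ (Fintype.card ι) := by
    apply pow_le_pow_of_le_one (by positivity) _ hcard
    rw [div_le_one (by positivity)]
    have : (0 : ℝ) ≤ M := Nat.cast_nonneg M
    linarith
  have h9 : (N : ℝ) * (1 / ((M : ℝ) + 1)) ^ K ≤ (N : ℝ) * (1 / ((M : ℝ) + 1)) ^ (Fintype.card ι) :=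
    mul_le_mul_of_nonneg_left hle hN0.le
  have h10 : (N : ℝ) * ((1 / ((M : ℝ) + 1)) ^ K / 2) ≤ N * ρ ^ M := by linarith
  have h11 := le_of_mul_le_mul_left h10 hN0
  rw [one_div, inv_pow] at h11
  have hpos : 0 < ((M : ℝ) + 1) ^ K := by positivity
  have h12 : 1 ≤ 2 * ((M : ℝ) + 1) ^ K * ρ ^ M := by
    have h13 := mul_le_mul_of_nonneg_left h11 (show 0 ≤ 2 * ((M : ℝ) + 1) ^ K by positivity)
    have h14 : 2 * ((M : ℝ) + 1) ^ K * ((((M : ℝ) + 1) ^ K)⁻¹ / 2) = 1 := by
      field_simp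
    linarith
  linarith

end Pool.Agent.X25.Pk
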