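import Pool.Agent.X25.Pk.Upper

/-!
The lower bound for packing progressions: chains of progressions which are forced to intersect.
-/

set_option autoImplicit false

namespace Pool.Agent.X25.Pk

open Finset Filter Topology

/-- two progressions in the same class modulo the greatest common divisor of the differences
intersect if they overlap in an interval of length at least the least common multiple -/
lemma forced (d e : ℕ) (hd : 0 < d) (he : 0 < e) (s t : ℤ) (ℓ m : ℕ)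
    (hcl : ((Nat.gcd d e : ℕ) : ℤ) ∣ t - s)
    (hdis : ∀ i j : ℕ, 1 ≤ i → i ≤ ℓ → 1 ≤ j → j ≤ m → s + i * d ≠ t + j * e)
    (hL : s + d ≤ t + e) (h1 : t + e + Nat.lcm d e ≤ s + ℓ * d + 1)
    (h2 : t + e + Nat.lcm d e ≤ t + m * e + 1) : False := by
  -- a common element of the classes
  obtain ⟨c, hc⟩ := hcl
  have hb := Nat.gcd_eq_gcd_ab d e
  obtain ⟨x₀, hx1, hx2⟩ : ∃ x₀ : ℤ, (d : ℤ) ∣ x₀ - s ∧ (e : ℤ) ∣ x₀ - t := by
    refine ⟨s + d * (Nat.gcdA d e * c), ⟨Nat.gcdA d e * c, by ring⟩, ⟨-(Nat.gcdB d e * c), ?_⟩⟩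
    have h3 : t = s + (Nat.gcd d e : ℕ) * c := by linarith
    rw [h3, hb]
    ring
  have hl0 : 0 < Nat.lcm d e := Nat.lcm_pos hd he
  have hl0' : (0 : ℤ) < (Nat.lcm d e : ℕ) := by exact_mod_cast hl0
  obtain ⟨x, hx⟩ : ∃ x : ℤ, x = t + e + (x₀ - (t + e)) % (Nat.lcm d e : ℕ) := ⟨_, rfl⟩
  have hm1 := Int.emod_nonneg (x₀ - (t + e)) hl0'.ne'
  have hm2 := Int.emod_lt_of_pos (x₀ - (t + e)) hl0'
  have hxl : ((Nat.lcm d e : ℕ) : ℤ) ∣ x₀ - x := by
    have h3 : x₀ - x = (x₀ - (t + e)) - (x₀ - (t + e)) % (Nat.lcm d e : ℕ) := by rw [hx]; ring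
    rw [h3]
    exact Int.dvd_self_sub_emod
  have hdl : (d : ℤ) ∣ (Nat.lcm d e : ℕ) := by exact_mod_cast Nat.dvd_lcm_left d e
  have hel : (e : ℤ) ∣ (Nat.lcm d e : ℕ) := by exact_mod_cast Nat.dvd_lcm_right d e
  have hd' : (d : ℤ) ∣ x - s := by
    have h3 : x - s = (x₀ - s) - (x₀ - x) := by ring
    rw [h3]
    exact dvd_sub hx1 (hdl.trans hxl)
  have he' : (e : ℤ) ∣ x - t := by
    have h3 : x - t = (x₀ - t) - (x₀ - x) := by ring
    rw [h3]
    exact dvd_sub hx2 (hel.trans hxl)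
  obtain ⟨i, hi⟩ := hd'
  obtain ⟨j, hj⟩ := he'
  have hd0 : (0 : ℤ) < d := by exact_mod_cast hd
  have he0 : (0 : ℤ) < e := by exact_mod_cast he
  have hi1 : 1 ≤ i := by
    have h3 : (d : ℤ) * 1 ≤ d * i := by linarith
    exact le_of_mul_le_mul_left h3 hd0
  have hi2 : i ≤ ℓ := by
    have h3 : (d : ℤ) * i ≤ d * ℓ := by linarith
    exact le_of_mul_le_mul_left h3 hd0
  have hj1 : 1 ≤ j := by
    have h3 : (e : ℤ) * 1 ≤ e * j := by linarith
    exact le_of_mul_le_mul_left h3 he0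
  have hj2 : j ≤ m := by
    have h3 : (e : ℤ) * j ≤ e * m := by linarith
    exact le_of_mul_le_mul_left h3 he0
  obtain ⟨i', rfl⟩ := Int.eq_ofNat_of_zero_le (by omega : 0 ≤ i)
  obtain ⟨j', rfl⟩ := Int.eq_ofNat_of_zero_le (by omega : 0 ≤ j)
  exact hdis i' j' (by exact_mod_cast hi1) (by exact_mod_cast hi2) (by exact_mod_cast hj1)
    (by exact_mod_cast hj2) (by linarith)

/-- the chain lemma -/
theorem chain (F : Finset ℕ) (L w : ℕ → ℝ) (hL : ∀ d ∈ F, 0 ≤ L d)
    (h : ∀ d ∈ F, ∀ e ∈ F, d ≠ e → L d ≤ L e → w d - d * e ≤ L e - L d) (hF : F.Nonempty) :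
    ∃ e ∈ F, ∑ d ∈ F, (w d - (d : ℝ) ^ 2) + (e : ℝ) ^ 2 / 2 ≤ L e + w e := by
  classical
  induction F using Finset.induction_on_max_value L with
  | empty => exact absurd hF not_nonempty_empty
  | insert a s ha hmax ih =>
    refine ⟨a, mem_insert_self _ _, ?_⟩
    rw [sum_insert ha]
    rcases s.eq_empty_or_nonempty with rfl | hs
    · rw [sum_empty]
      have := hL a (mem_insert_self _ _)
      nlinarith [sq_nonneg (a : ℝ)]
    · obtain ⟨e, he, hle⟩ := ih (fun d hd => hL d (mem_insert_of_mem hd))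
        (fun d hd e he => h d (mem_insert_of_mem hd) e (mem_insert_of_mem he)) hs
      have hne : e ≠ a := fun h => ha (h ▸ he)
      have h1 := h e (mem_insert_of_mem he) a (mem_insert_self _ _) hne (hmax e he)
      nlinarith [sq_nonneg ((a : ℝ) - e)]

/-- equal lengths: every set of differences whose progressions are pairwise in the same class modulo the
greatest common divisor -/
theorem lower_full (n m : ℕ) (F : Finset ℕ) (s : ℕ → ℤ) (hF : ∀ d ∈ F, 1 ≤ d ∧ d + 1 ≤ n)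
    (hpos : ∀ d ∈ F, ∀ i : ℕ, 1 ≤ i → i ≤ n → 1 ≤ s d + i * d ∧ s d + i * d ≤ m)
    (hdis : ∀ d ∈ F, ∀ e ∈ F, d ≠ e → ∀ i j : ℕ, 1 ≤ i → i ≤ n → 1 ≤ j → j ≤ n →
      s d + i * d ≠ s e + j * e)
    (hcl : ∀ d ∈ F, ∀ e ∈ F, d ≠ e → ((Nat.gcd d e : ℕ) : ℤ) ∣ s e - s d) :
    ∑ d ∈ F, (((n : ℝ) - 1) * d - (d : ℝ) ^ 2) ≤ (m : ℝ) := by
  rcases F.eq_empty_or_nonempty with rfl | hne
  · rw [sum_empty]; exact Nat.cast_nonneg m
  obtain ⟨e, he, hle⟩ := chain F (fun d => ((s d + d : ℤ) : ℝ)) (fun d => ((n : ℝ) - 1) * d)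
    (fun d hd => by
      have h1 := (hF d hd)
      have h2 := (hpos d hd 1 le_rfl (by omega)).1
      have h3 : (0 : ℤ) ≤ s d + d := by push_cast at h2; linarith
      exact_mod_cast h3)
    (fun d hd e he hde hle => by
      have hle' : s d + d ≤ s e + e := by exact_mod_cast hle
      obtain ⟨hd1, hd2⟩ := hF d hd
      obtain ⟨he1, he2⟩ := hF e he
      have hl : Nat.lcm d e ≤ d * e := Nat.le_of_dvd (by positivity) (Nat.lcm_dvd_mul d e)
      have h4 : d * e + e ≤ n * e := by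
        calc d * e + e = (d + 1) * e := by ring
          _ ≤ n * e := Nat.mul_le_mul_right _ hd2
      by_contra hcon
      push Not at hcon
      have h5 : ((n : ℤ) - 1) * d - d * e > s e + e - (s d + d) := by
        have : (((n : ℤ) - 1 : ℤ) : ℝ) * d - d * e > ((s e + e - (s d + d) : ℤ) : ℝ) := by
          push_cast at hcon ⊢
          linarith
        exact_mod_cast this
      refine forced d e hd1 he1 (s d) (s e) n n (hcl d hd e he hde) (hdis d hd e he hde) hle' ?_ ?_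
      · have hl' : ((Nat.lcm d e : ℕ) : ℤ) ≤ d * e := by exact_mod_cast hl
        nlinarith
      · have hl' : ((Nat.lcm d e : ℕ) : ℤ) ≤ d * e := by exact_mod_cast hl
        have h4' : (d : ℤ) * e + e ≤ n * e := by exact_mod_cast h4
        linarith) hne
  have h1 := (hpos e he n (by have := hF e he; omega) le_rfl).2
  have h2 : (s e : ℝ) + n * e ≤ m := by exact_mod_cast h1
  have h3 := sq_nonneg (e : ℝ)
  push_cast at hle
  linarith

/-- the lengths `n / d` -/
theorem lower_sqrt (n m : ℕ) (F : Finset ℕ) (s : ℕ → ℤ) (hF : ∀ d ∈ F, 1 ≤ d ∧ (d + 2) ^ 2 ≤ n)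
    (hpos : ∀ d ∈ F, ∀ i : ℕ, 1 ≤ i → i ≤ n / d → 1 ≤ s d + i * d ∧ s d + i * d ≤ m)
    (hdis : ∀ d ∈ F, ∀ e ∈ F, d ≠ e → ∀ i j : ℕ, 1 ≤ i → i ≤ n / d → 1 ≤ j → j ≤ n / e →
      s d + i * d ≠ s e + j * e)
    (hcl : ∀ d ∈ F, ∀ e ∈ F, d ≠ e → ((Nat.gcd d e : ℕ) : ℤ) ∣ s e - s d) :
    ∑ d ∈ F, ((n : ℝ) - 2 * d - (d : ℝ) ^ 2) ≤ (m : ℝ) := by
  rcases F.eq_empty_or_nonempty with rfl | hne
  · rw [sum_empty]; exact Nat.cast_nonneg m
  have hlen : ∀ d ∈ F, n + 1 ≤ (n / d) * d + d ∧ 1 ≤ n / d := by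
    intro d hd
    obtain ⟨h1, h2⟩ := hF d hd
    have h3 := Nat.div_add_mod n d
    have h4 := Nat.mod_lt n h1
    refine ⟨by rw [Nat.mul_comm]; omega, ?_⟩
    rw [Nat.one_le_div_iff h1]
    nlinarith
  obtain ⟨e, he, hle⟩ := chain F (fun d => ((s d + d : ℤ) : ℝ)) (fun d => (n : ℝ) - 2 * d)
    (fun d hd => by
      have h2 := (hpos d hd 1 le_rfl (hlen d hd).2).1
      have h3 : (0 : ℤ) ≤ s d + d := by push_cast at h2; linarith
      exact_mod_cast h3)
    (fun d hd e he hde hle => by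
      have hle' : s d + d ≤ s e + e := by exact_mod_cast hle
      obtain ⟨hd1, hd2⟩ := hF d hd
      obtain ⟨he1, he2⟩ := hF e he
      have hl : Nat.lcm d e ≤ d * e := Nat.le_of_dvd (by positivity) (Nat.lcm_dvd_mul d e)
      have hl' : ((Nat.lcm d e : ℕ) : ℤ) ≤ d * e := by exact_mod_cast hl
      have h4 : d * e + 2 * e ≤ n := by
        rcases le_total d e with h | h
        · nlinarith
        · nlinarith
      have h4' : (d : ℤ) * e + 2 * e ≤ n := by exact_mod_cast h4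
      have h6 : ((n : ℤ) + 1) ≤ ((n / d : ℕ) : ℤ) * d + d := by exact_mod_cast (hlen d hd).1
      have h7 : ((n : ℤ) + 1) ≤ ((n / e : ℕ) : ℤ) * e + e := by exact_mod_cast (hlen e he).1
      by_contra hcon
      push Not at hcon
      have h5 : (n : ℤ) - 2 * d - d * e > s e + e - (s d + d) := by
        have : ((n : ℤ) : ℝ) - 2 * d - d * e > ((s e + e - (s d + d) : ℤ) : ℝ) := by
          push_cast at hcon ⊢
          linarith
        exact_mod_cast this
      refine forced d e hd1 he1 (s d) (s e) (n / d) (n / e) (hcl d hd e he hde) (hdis d hd e he hde) hle' ?_ ?_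
      · linarith
      · linarith) hne
  have h1 := (hpos e he (n / e) (hlen e he).2 le_rfl).2
  have h2 : ((s e + ((n / e : ℕ) : ℤ) * e : ℤ) : ℝ) ≤ m := by exact_mod_cast h1
  have h7 : (((n : ℤ) + 1 : ℤ) : ℝ) ≤ ((((n / e : ℕ) : ℤ) * e + e : ℤ) : ℝ) := by exact_mod_cast (hlen e he).1
  have h3 := sq_nonneg (e : ℝ)
  push_cast at hle h2 h7
  linarith

lemma tendsto_shift (a : ℝ) : Tendsto (fun y : ℝ => Real.log (y - a) / Real.log y) atTop (𝓝 1) := by
  have h1 : Tendsto (fun y : ℝ => Real.log (1 - a / y)) atTop (𝓝 0) := by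
    have h2 : Tendsto (fun y : ℝ => 1 - a / y) atTop (𝓝 1) := by
      have h3 := (tendsto_const_nhds (x := a)).div_atTop tendsto_id
      have h4 := (tendsto_const_nhds (x := (1 : ℝ))).sub h3
      simpa using h4
    have h5 := (Real.continuousAt_log (by norm_num : (1 : ℝ) ≠ 0)).tendsto.comp h2
    rwa [Real.log_one] at h5
  have h2 : Tendsto (fun y : ℝ => 1 + Real.log (1 - a / y) / Real.log y) atTop (𝓝 1) := by
    have h3 := h1.div_atTop Real.tendsto_log_atTop
    have h4 := (tendsto_const_nhds (x := (1 : ℝ))).add h3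
    simpa using h4
  refine h2.congr' ?_
  filter_upwards [eventually_gt_atTop (max 1 a)] with y hy
  have hy1 : 1 < y := (le_max_left _ _).trans_lt hy
  have hya : a < y := (le_max_right _ _).trans_lt hy
  have hly : 0 < Real.log y := Real.log_pos hy1
  have h3 : Real.log (y - a) = Real.log y + Real.log (1 - a / y) := by
    rw [← Real.log_mul (by positivity)]
    · congr 1
      field_simp
    · have : a / y < 1 := by rw [div_lt_one (by linarith)]; exact hya
      linarith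
  rw [h3, add_div, div_self hly.ne']

theorem shift_lim (S : ℝ → ℝ) (c a : ℝ)
    (hS : Tendsto (fun y => S y * Real.log y / y ^ 3) atTop (𝓝 c)) :
    Tendsto (fun y : ℝ => S (y - a) * Real.log y / y ^ 3) atTop (𝓝 c) := by
  have ht : Tendsto (fun y : ℝ => y - a) atTop atTop := tendsto_atTop_add_const_right _ (-a) tendsto_id
  have h1 := hS.comp ht
  have h2 : Tendsto (fun y : ℝ => ((y - a) / y) ^ 3) atTop (𝓝 1) := by
    have h3 : Tendsto (fun y : ℝ => 1 - a / y) atTop (𝓝 1) := by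
      have h3 := (tendsto_const_nhds (x := a)).div_atTop tendsto_id
      have h4 := (tendsto_const_nhds (x := (1 : ℝ))).sub h3
      simpa using h4
    have h4 : Tendsto (fun y : ℝ => (y - a) / y) atTop (𝓝 1) := by
      refine h3.congr' ?_
      filter_upwards [eventually_gt_atTop 0] with y hy
      field_simp
    have h5 := h4.pow 3
    rwa [one_pow] at h5
  have h3 := (tendsto_shift a).inv₀ one_ne_zero
  rw [inv_one] at h3
  have h4 := (h1.mul h2).mul h3
  rw [mul_one, mul_one] at h4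
  refine h4.congr' ?_
  filter_upwards [eventually_gt_atTop (max 1 (a + 1))] with y hy
  have hy1 : 1 < y := (le_max_left _ _).trans_lt hy
  have hya : a + 1 < y := (le_max_right _ _).trans_lt hy
  have hly : 0 < Real.log y := Real.log_pos hy1
  have hly' : 0 < Real.log (y - a) := Real.log_pos (by linarith)
  have hya' : y - a ≠ 0 := by linarith
  simp only [Function.comp]
  field_simp

theorem squeeze (S : ℝ → ℝ) (c a : ℝ)
    (hS : Tendsto (fun y => S y * Real.log y / y ^ 3) atTop (𝓝 c)) (f : ℕ → ℝ) (y : ℕ → ℝ)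
    (hy : Tendsto y atTop atTop) (hlow : ∀ᶠ n in atTop, S (y n - a) ≤ f n)
    (hup : ∀ η : ℝ, 0 < η → ∀ᶠ n in atTop, f n ≤ S (y n) + η * (y n ^ 3 / Real.log (y n))) :
    Tendsto (fun n => f n * Real.log (y n) / y n ^ 3) atTop (𝓝 c) := by
  have hsh := shift_lim S c a hS
  have h1 := hsh.comp hy
  have h2 := hS.comp hy
  rw [Metric.tendsto_atTop] at h1 h2 ⊢
  intro ε hε
  obtain ⟨N₁, hN₁⟩ := h1 ε hε
  obtain ⟨N₂, hN₂⟩ := h2 (ε / 2) (by positivity)
  obtain ⟨N₃, hN₃⟩ := eventually_atTop.1 (((hy.eventually_gt_atTop 1).and hlow).and (hup (ε / 2) (by positivity)))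
  refine ⟨max (max N₁ N₂) N₃, fun n hn => ?_⟩
  have a1 := hN₁ n (((le_max_left _ _).trans (le_max_left _ _)).trans hn)
  have a2 := hN₂ n (((le_max_right _ _).trans (le_max_left _ _)).trans hn)
  obtain ⟨⟨a3, a4⟩, a5⟩ := hN₃ n ((le_max_right _ _).trans hn)
  simp only [Function.comp] at a1 a2
  rw [Real.dist_eq] at a1 a2 ⊢
  have hy0 : 0 < y n := by linarith
  have hly : 0 < Real.log (y n) := Real.log_pos a3
  have b1 : S (y n - a) * Real.log (y n) / y n ^ 3 ≤ f n * Real.log (y n) / y n ^ 3 := by gcongr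
  have b2 : f n * Real.log (y n) / y n ^ 3 ≤ S (y n) * Real.log (y n) / y n ^ 3 + ε / 2 := by
    have b3 : f n * Real.log (y n) / y n ^ 3 ≤
        (S (y n) + ε / 2 * (y n ^ 3 / Real.log (y n))) * Real.log (y n) / y n ^ 3 := by gcongr
    refine b3.trans (le_of_eq ?_)
    field_simp
  obtain ⟨c1, c2⟩ := abs_lt.1 a1
  obtain ⟨c3, c4⟩ := abs_lt.1 a2
  rw [abs_lt]
  constructor <;> linarith

end Pool.Agent.X25.Pk
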