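import Pool.Agent.X25.Pk.Block
import Pool.Agent.Helper923.PNT

/-!
Sums over primes from the prime number theorem.
-/

set_option autoImplicit false

namespace Pool.Agent.X25.Pk

open Finset Filter Topology

/-- the primes up to `y` -/
noncomputable def Pr (y : ℝ) : Finset ℕ := (range (⌊y⌋₊ + 1)).filter Nat.Prime

lemma mem_Pr {y : ℝ} (hy : 0 ≤ y) {p : ℕ} : p ∈ Pr y ↔ p.Prime ∧ (p : ℝ) ≤ y := by
  unfold Pr
  rw [mem_filter, mem_range, Nat.lt_succ_iff, Nat.le_floor_iff hy, and_comm]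

lemma card_Pr (y : ℝ) : (Pr y).card = Nat.primeCounting ⌊y⌋₊ := by
  unfold Pr
  rw [Nat.primeCounting, Nat.primeCounting', Nat.count_eq_card_filter_range]

lemma Pr_nat (N : ℕ) : Pr (N : ℝ) = (range (N + 1)).filter Nat.Prime := by
  unfold Pr
  rw [Nat.floor_natCast]

/-- the prime number theorem, uniformly -/
theorem pi_unif (ε : ℝ) (hε : 0 < ε) : ∃ Y : ℝ, 1 < Y ∧ ∀ y : ℝ, Y ≤ y → ∀ x : ℝ, 0 ≤ x → x ≤ y →
    |(Nat.primeCounting ⌊x⌋₊ : ℝ) * Real.log y / y - x / y| ≤ ε := by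
  -- it is enough to treat small ε
  obtain ⟨η, hη⟩ : ∃ η : ℝ, η = min ε 1 / 8 := ⟨_, rfl⟩
  have hη0 : 0 < η := by rw [hη]; positivity
  have hη1 : η ≤ 1 / 8 := by rw [hη]; have := min_le_right ε 1; linarith
  have hηε : 8 * η ≤ ε := by rw [hη]; have := min_le_left ε 1; linarith
  obtain ⟨X, hX⟩ := Metric.tendsto_atTop.1 Pool.Agent.Helper923.PNT.pi_tendsto η hη0
  have hX1 : ∀ x : ℝ, X ≤ x → |(Nat.primeCounting ⌊x⌋₊ : ℝ) * Real.log x / x - 1| < η := by
    intro x hx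
    have := hX x hx
    rwa [Real.dist_eq] at this
  -- log (1/η) is small compared with log y
  have hlog := Real.tendsto_log_atTop.eventually_ge_atTop ((1 + 1 / η) * Real.log (1 / η) + 1)
  obtain ⟨Y₁, hY₁⟩ := (hlog.and (eventually_ge_atTop (max X 1 / η + 2))).exists_forall_of_atTop
  have hlη : 0 < Real.log (1 / η) := Real.log_pos (by rw [lt_div_iff₀ hη0]; linarith)
  refine ⟨max Y₁ 2, lt_of_lt_of_le (by norm_num) (le_max_right _ _), ?_⟩
  -- the case x ≥ η y
  have hbig : ∀ y : ℝ, Y₁ ≤ y → ∀ x : ℝ, η * y ≤ x → x ≤ y →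
      |(Nat.primeCounting ⌊x⌋₊ : ℝ) * Real.log y / y - x / y| ≤ 3 * η := by
    intro y hy x hx hxy
    obtain ⟨h1, h2⟩ := hY₁ y hy
    have hy0 : 0 < y := by
      have : 0 ≤ max X 1 / η := by positivity
      linarith
    have hx0 : 0 < x := lt_of_lt_of_le (by positivity) hx
    have hxX : max X 1 + 2 * η ≤ x := by
      have h3 : max X 1 / η + 2 ≤ y := h2
      have h4 : η * (max X 1 / η + 2) ≤ η * y := mul_le_mul_of_nonneg_left h3 hη0.le
      have h5 : η * (max X 1 / η + 2) = max X 1 + 2 * η := by field_simp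
      linarith
    have hxX1 : X ≤ x := by have := le_max_left X 1; linarith
    have hx1 : 1 < x := by have := le_max_right X 1; linarith
    have hlx : 0 < Real.log x := Real.log_pos hx1
    have h3 := hX1 x hxX1
    -- log y / log x
    have h4 : Real.log y ≤ Real.log x + Real.log (1 / η) := by
      rw [← Real.log_mul hx0.ne' (by positivity)]
      apply Real.log_le_log hy0
      rw [mul_one_div, le_div_iff₀ hη0]
      linarith
    have h5 : Real.log x ≤ Real.log y := Real.log_le_log hx0 hxy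
    have h6 : Real.log (1 / η) ≤ η * Real.log x := by
      have h7 : (1 + 1 / η) * Real.log (1 / η) ≤ Real.log y := by linarith
      have h8 : 1 / η * Real.log (1 / η) ≤ Real.log x := by
        have : (1 + 1 / η) * Real.log (1 / η) = Real.log (1 / η) + 1 / η * Real.log (1 / η) := by ring
        linarith
      have h9 := mul_le_mul_of_nonneg_left h8 hη0.le
      have h10 : η * (1 / η * Real.log (1 / η)) = Real.log (1 / η) := by field_simp
      linarith
    obtain ⟨L, hL⟩ : ∃ L : ℝ, L = Real.log y / Real.log x := ⟨_, rfl⟩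
    have hL1 : 1 ≤ L := by rw [hL, le_div_iff₀ hlx]; linarith
    have hL2 : L ≤ 1 + η := by rw [hL, div_le_iff₀ hlx]; nlinarith
    obtain ⟨q, hq⟩ : ∃ q : ℝ, q = (Nat.primeCounting ⌊x⌋₊ : ℝ) * Real.log x / x := ⟨_, rfl⟩
    rw [← hq] at h3
    have e1 : (Nat.primeCounting ⌊x⌋₊ : ℝ) * Real.log y / y = x / y * (q * L) := by
      rw [hq, hL]
      field_simp
    have e2 : (Nat.primeCounting ⌊x⌋₊ : ℝ) * Real.log y / y - x / y = x / y * (q * L - 1) := by
      rw [e1]; ring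
    rw [e2, abs_mul]
    have h11 : |x / y| ≤ 1 := by
      rw [abs_of_nonneg (by positivity), div_le_one hy0]
      exact hxy
    have h12 : |q * L - 1| ≤ 3 * η := by
      obtain ⟨h13, h14⟩ := abs_lt.1 h3
      rw [abs_le]
      constructor
      · nlinarith
      · nlinarith
    calc |x / y| * |q * L - 1| ≤ 1 * (3 * η) := mul_le_mul h11 h12 (abs_nonneg _) zero_le_one
      _ = 3 * η := one_mul _
  intro y hy x hx hxy
  have hyY : Y₁ ≤ y := (le_max_left _ _).trans hy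
  have hy2 : 2 ≤ y := (le_max_right _ _).trans hy
  have hy0 : 0 < y := by linarith
  rcases le_or_gt (η * y) x with h | h
  · have := hbig y hyY x h hxy
    linarith
  · have h1 := hbig y hyY (η * y) le_rfl (by nlinarith)
    have h2 : (Nat.primeCounting ⌊x⌋₊ : ℝ) ≤ (Nat.primeCounting ⌊η * y⌋₊ : ℝ) := by
      exact_mod_cast Nat.monotone_primeCounting (Nat.floor_mono h.le)
    have hly : 0 ≤ Real.log y := Real.log_nonneg (by linarith)
    have h3 : (Nat.primeCounting ⌊x⌋₊ : ℝ) * Real.log y / y ≤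
        (Nat.primeCounting ⌊η * y⌋₊ : ℝ) * Real.log y / y := by gcongr
    have h4 : 0 ≤ (Nat.primeCounting ⌊x⌋₊ : ℝ) * Real.log y / y := by positivity
    have h5 : η * y / y = η := by field_simp
    rw [h5] at h1
    have h6 := (abs_le.1 h1).2
    have h7 : 0 ≤ x / y := by positivity
    have h8 : x / y ≤ η := by
      rw [div_le_iff₀ hy0]
      exact h.le
    rw [abs_le]
    constructor <;> linarith

lemma abel_p (g : ℕ → ℝ) (N : ℕ) : ∑ p ∈ (range (N + 1)).filter Nat.Prime, g p =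
    (Nat.primeCounting N : ℝ) * g N - ∑ k ∈ range N, (Nat.primeCounting k : ℝ) * (g (k + 1) - g k) := by
  induction N with
  | zero => rw [zero_add, range_one, filter_singleton, if_neg Nat.not_prime_zero]; simp
  | succ N ih =>
    rw [range_add_one, filter_insert, sum_range_succ]
    by_cases h : Nat.Prime (N + 1)
    · rw [if_pos h, sum_insert (by simp), ih]
      have : Nat.primeCounting (N + 1) = Nat.primeCounting N + 1 := by
        rw [Nat.primeCounting, Nat.primeCounting, Nat.primeCounting', Nat.count_succ, if_pos h]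
      rw [this]
      push_cast
      ring
    · rw [if_neg h, ih]
      have : Nat.primeCounting (N + 1) = Nat.primeCounting N := by
        rw [Nat.primeCounting, Nat.primeCounting, Nat.primeCounting', Nat.count_succ, if_neg h, add_zero]
      rw [this]
      ring

lemma abel_n (g : ℕ → ℝ) (N : ℕ) : ∑ k ∈ range N, g (k + 1) =
    (N : ℝ) * g N - ∑ k ∈ range N, (k : ℝ) * (g (k + 1) - g k) := by
  induction N with
  | zero => simp
  | succ N ih =>
    rw [sum_range_succ, sum_range_succ, ih]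
    push_cast
    ring

/-- comparison of a sum over primes with a sum over integers, for monotone functions -/
theorem prime_sum (ε : ℝ) (hε : 0 < ε) : ∃ Y : ℝ, 1 < Y ∧ ∀ y : ℝ, Y ≤ y → ∀ g : ℕ → ℝ, Monotone g →
    0 ≤ g 0 → |Real.log y / y * ∑ p ∈ Pr y, g p - 1 / y * ∑ k ∈ range ⌊y⌋₊, g (k + 1)| ≤
      ε * g ⌊y⌋₊ := by
  obtain ⟨Y, hY1, hY⟩ := pi_unif (ε / 2) (by positivity)
  refine ⟨Y, hY1, ?_⟩
  intro y hy g hg hg0
  have hy0 : 0 < y := by linarith
  unfold Pr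
  rw [abel_p, abel_n]
  obtain ⟨N, hN⟩ : ∃ N : ℕ, N = ⌊y⌋₊ := ⟨_, rfl⟩
  rw [← hN]
  have hNy : (N : ℝ) ≤ y := by rw [hN]; exact Nat.floor_le hy0.le
  have hgN : 0 ≤ g N := hg0.trans (hg (Nat.zero_le N))
  have hk : ∀ k : ℕ, k ≤ N → |(Nat.primeCounting k : ℝ) * Real.log y / y - k / y| ≤ ε / 2 := by
    intro k hkN
    have h1 : (k : ℝ) ≤ N := by exact_mod_cast hkN
    have := hY y hy k (Nat.cast_nonneg k) (h1.trans hNy)
    rwa [Nat.floor_natCast] at this
  have e1 : Real.log y / y * ((Nat.primeCounting N : ℝ) * g N -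
      ∑ k ∈ range N, (Nat.primeCounting k : ℝ) * (g (k + 1) - g k)) -
      1 / y * ((N : ℝ) * g N - ∑ k ∈ range N, (k : ℝ) * (g (k + 1) - g k)) =
      ((Nat.primeCounting N : ℝ) * Real.log y / y - N / y) * g N -
      ∑ k ∈ range N, ((Nat.primeCounting k : ℝ) * Real.log y / y - k / y) * (g (k + 1) - g k) := by
    rw [mul_sub, mul_sub, mul_sum, mul_sum]
    have e2 : ∑ k ∈ range N, ((Nat.primeCounting k : ℝ) * Real.log y / y - k / y) * (g (k + 1) - g k) =
        ∑ k ∈ range N, Real.log y / y * ((Nat.primeCounting k : ℝ) * (g (k + 1) - g k)) -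
        ∑ k ∈ range N, 1 / y * ((k : ℝ) * (g (k + 1) - g k)) := by
      rw [← sum_sub_distrib]
      exact sum_congr rfl fun k _ => by ring
    rw [e2]
    ring
  rw [e1]
  calc |((Nat.primeCounting N : ℝ) * Real.log y / y - N / y) * g N -
      ∑ k ∈ range N, ((Nat.primeCounting k : ℝ) * Real.log y / y - k / y) * (g (k + 1) - g k)|
      ≤ |((Nat.primeCounting N : ℝ) * Real.log y / y - N / y) * g N| +
        |∑ k ∈ range N, ((Nat.primeCounting k : ℝ) * Real.log y / y - k / y) * (g (k + 1) - g k)| := abs_sub _ _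
    _ ≤ ε / 2 * g N + ∑ k ∈ range N, ε / 2 * (g (k + 1) - g k) := by
        apply add_le_add
        · rw [abs_mul, abs_of_nonneg hgN]
          exact mul_le_mul_of_nonneg_right (hk N le_rfl) hgN
        · refine (abs_sum_le_sum_abs _ _).trans (sum_le_sum fun k hk' => ?_)
          have h1 : 0 ≤ g (k + 1) - g k := sub_nonneg.2 (hg (Nat.le_succ k))
          rw [abs_mul, abs_of_nonneg h1]
          exact mul_le_mul_of_nonneg_right (hk k (mem_range.1 hk').le) h1
    _ = ε / 2 * g N + ε / 2 * (g N - g 0) := by rw [← mul_sum, sum_range_sub]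
    _ ≤ ε * g N := by nlinarith

lemma sum_id (N : ℕ) : ∑ k ∈ range N, ((k : ℝ) + 1) = (N : ℝ) * (N + 1) / 2 := by
  induction N with
  | zero => simp
  | succ N ih => rw [sum_range_succ, ih]; push_cast; ring

lemma sum_sq (N : ℕ) : ∑ k ∈ range N, ((k : ℝ) + 1) ^ 2 = (N : ℝ) * (N + 1) * (2 * N + 1) / 6 := by
  induction N with
  | zero => simp
  | succ N ih => rw [sum_range_succ, ih]; push_cast; ring

theorem sum_p1 : Tendsto (fun y : ℝ => (∑ p ∈ Pr y, (p : ℝ)) * Real.log y / y ^ 2) atTop (𝓝 (1 / 2)) := by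
  rw [Metric.tendsto_atTop]
  intro ε hε
  obtain ⟨Y, hY1, hY⟩ := prime_sum (ε / 2) (by positivity)
  refine ⟨max Y (4 / ε + 1), fun y hy => ?_⟩
  have hyY := (le_max_left _ _).trans hy
  have hyε := (le_max_right _ _).trans hy
  have hy0 : 0 < y := by linarith
  have h := hY y hyY (fun k => (k : ℝ) / y) (by
    intro a b hab
    have : (a : ℝ) ≤ b := by exact_mod_cast hab
    show (a : ℝ) / y ≤ b / y
    gcongr) (by simp)
  rw [Real.dist_eq]
  have hN1 := Nat.floor_le hy0.le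
  have hN2 := Nat.lt_floor_add_one y
  set N := ⌊y⌋₊ with hN
  have e1 : Real.log y / y * ∑ p ∈ Pr y, (p : ℝ) / y = (∑ p ∈ Pr y, (p : ℝ)) * Real.log y / y ^ 2 := by
    rw [← sum_div]
    field_simp
  have e2 : 1 / y * ∑ k ∈ range N, ((k + 1 : ℕ) : ℝ) / y = (N : ℝ) * (N + 1) / 2 / y ^ 2 := by
    rw [← sum_div]
    push_cast
    rw [sum_id]
    field_simp
  rw [e1, e2] at h
  have h3 : |(N : ℝ) * (N + 1) / 2 / y ^ 2 - 1 / 2| ≤ 1 / y := by
    have e3 : (N : ℝ) * (N + 1) / 2 / y ^ 2 - 1 / 2 = ((N : ℝ) * (N + 1) - y ^ 2) / (2 * y ^ 2) := by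
      field_simp
    rw [e3, abs_div, abs_of_pos (show 0 < 2 * y ^ 2 by positivity), div_le_div_iff₀ (by positivity) hy0]
    have h4 : |(N : ℝ) * (N + 1) - y ^ 2| ≤ y := by
      rw [abs_le]
      constructor <;> nlinarith
    nlinarith
  have h5 : 1 / y < ε / 4 := by
    rw [div_lt_div_iff₀ hy0 (by norm_num)]
    have h6 : 4 / ε < y := by linarith
    rw [div_lt_iff₀ hε] at h6
    linarith
  have h7 : (N : ℝ) / y ≤ 1 := by rw [div_le_one hy0]; exact hN1
  calc |(∑ p ∈ Pr y, (p : ℝ)) * Real.log y / y ^ 2 - 1 / 2|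
      ≤ |(∑ p ∈ Pr y, (p : ℝ)) * Real.log y / y ^ 2 - (N : ℝ) * (N + 1) / 2 / y ^ 2| +
        |(N : ℝ) * (N + 1) / 2 / y ^ 2 - 1 / 2| := abs_sub_le _ _ _
    _ ≤ ε / 2 * (N / y) + 1 / y := add_le_add h h3
    _ < ε := by nlinarith

theorem sum_p2 : Tendsto (fun y : ℝ => (∑ p ∈ Pr y, (p : ℝ) ^ 2) * Real.log y / y ^ 3) atTop (𝓝 (1 / 3)) := by
  rw [Metric.tendsto_atTop]
  intro ε hε
  obtain ⟨Y, hY1, hY⟩ := prime_sum (ε / 2) (by positivity)
  refine ⟨max Y (8 / ε + 1), fun y hy => ?_⟩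
  have hyY := (le_max_left _ _).trans hy
  have hyε := (le_max_right _ _).trans hy
  have hy0 : 0 < y := by linarith
  have hy1 : 1 < y := by linarith
  have h := hY y hyY (fun k => ((k : ℝ) / y) ^ 2) (by
    intro a b hab
    have : (a : ℝ) ≤ b := by exact_mod_cast hab
    show ((a : ℝ) / y) ^ 2 ≤ (b / y) ^ 2
    gcongr) (by simp)
  rw [Real.dist_eq]
  have hN1 := Nat.floor_le hy0.le
  have hN2 := Nat.lt_floor_add_one y
  set N := ⌊y⌋₊ with hN
  have e1 : Real.log y / y * ∑ p ∈ Pr y, ((p : ℝ) / y) ^ 2 = (∑ p ∈ Pr y, (p : ℝ) ^ 2) * Real.log y / y ^ 3 := by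
    have : ∀ p ∈ Pr y, ((p : ℝ) / y) ^ 2 = (p : ℝ) ^ 2 / y ^ 2 := fun p _ => div_pow _ _ _
    rw [sum_congr rfl this, ← sum_div]
    field_simp
  have e2 : 1 / y * ∑ k ∈ range N, (((k + 1 : ℕ) : ℝ) / y) ^ 2 =
      (N : ℝ) * (N + 1) * (2 * N + 1) / 6 / y ^ 3 := by
    have : ∀ k ∈ range N, (((k + 1 : ℕ) : ℝ) / y) ^ 2 = ((k : ℝ) + 1) ^ 2 / y ^ 2 := fun k _ => by
      push_cast
      exact div_pow _ _ _
    rw [sum_congr rfl this, ← sum_div, sum_sq]
    field_simp
  rw [e1, e2] at h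
  have h3 : |(N : ℝ) * (N + 1) * (2 * N + 1) / 6 / y ^ 3 - 1 / 3| ≤ 2 / y := by
    have e3 : (N : ℝ) * (N + 1) * (2 * N + 1) / 6 / y ^ 3 - 1 / 3 =
        ((N : ℝ) * (N + 1) * (2 * N + 1) - 2 * y ^ 3) / (6 * y ^ 3) := by
      field_simp
      ring
    rw [e3, abs_div, abs_of_pos (show 0 < 6 * y ^ 3 by positivity), div_le_div_iff₀ (by positivity) hy0]
    have hN0 : (0 : ℝ) ≤ N := Nat.cast_nonneg N
    have h4 : |(N : ℝ) * (N + 1) * (2 * N + 1) - 2 * y ^ 3| ≤ 12 * y ^ 2 := by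
      rw [abs_le]
      constructor
      · -- lower bound with N > y - 1
        have a1 : (N : ℝ) * (N + 1) ≥ (y - 1) * y := by nlinarith
        have a2 : (2 * (N : ℝ) + 1) ≥ 2 * y - 1 := by linarith
        have a3 : (N : ℝ) * (N + 1) * (2 * N + 1) ≥ (y - 1) * y * (2 * y - 1) := by
          apply mul_le_mul a1 a2 (by linarith) (by positivity)
        nlinarith
      · have a1 : (N : ℝ) * (N + 1) ≤ y * (y + 1) := by nlinarith
        have a2 : (2 * (N : ℝ) + 1) ≤ 2 * y + 1 := by linarith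
        have a3 : (N : ℝ) * (N + 1) * (2 * N + 1) ≤ y * (y + 1) * (2 * y + 1) := by
          apply mul_le_mul a1 a2 (by positivity) (by positivity)
        nlinarith
    calc |(N : ℝ) * (N + 1) * (2 * N + 1) - 2 * y ^ 3| * y ≤ 12 * y ^ 2 * y :=
          mul_le_mul_of_nonneg_right h4 hy0.le
      _ = 2 * (6 * y ^ 3) := by ring
  have h5 : 2 / y < ε / 4 := by
    rw [div_lt_div_iff₀ hy0 (by norm_num)]
    have h6 : 8 / ε < y := by linarith
    rw [div_lt_iff₀ hε] at h6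
    linarith
  have h7 : ((N : ℝ) / y) ^ 2 ≤ 1 := by
    apply pow_le_one₀ (by positivity)
    rw [div_le_one hy0]; exact hN1
  calc |(∑ p ∈ Pr y, (p : ℝ) ^ 2) * Real.log y / y ^ 3 - 1 / 3|
      ≤ |(∑ p ∈ Pr y, (p : ℝ) ^ 2) * Real.log y / y ^ 3 - (N : ℝ) * (N + 1) * (2 * N + 1) / 6 / y ^ 3| +
        |(N : ℝ) * (N + 1) * (2 * N + 1) / 6 / y ^ 3 - 1 / 3| := abs_sub_le _ _ _
    _ ≤ ε / 2 * ((N : ℝ) / y) ^ 2 + 2 / y := add_le_add h h3
    _ < ε := by nlinarith

theorem sum_p0 : Tendsto (fun y : ℝ => ((Pr y).card : ℝ) * Real.log y / y) atTop (𝓝 1) := by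
  refine Pool.Agent.Helper923.PNT.pi_tendsto.congr fun y => ?_
  rw [card_Pr]

end Pool.Agent.X25.Pk
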