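import Pool.Agent.X25.Pk.Sums

/-!
The upper bound for packing progressions with prime differences.
-/

set_option autoImplicit false

namespace Pool.Agent.X25.Pk

open Finset Filter Topology

/-- the block of a prime -/
noncomputable def blk (J : ℕ) (y : ℝ) (p : ℕ) : ℕ := ⌊(p : ℝ) * J / y⌋₊

theorem upper (η : ℝ) (hη : 0 < η) : ∃ Y : ℝ, 1 < Y ∧ ∀ y : ℝ, Y ≤ y → ∀ σ : ℝ → ℝ,
    (∀ x, 0 ≤ x → x ≤ 1 → x ≤ σ x ∧ σ x ≤ 1) → (∀ x x', x ≤ x' → σ x ≤ σ x' ∧ σ x' ≤ σ x + (x' - x)) →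
    ∀ len : ℕ → ℕ, (∀ p ∈ Pr y, (len p : ℝ) * p ≤ y ^ 2 * σ (p / y)) →
    ∃ m : ℕ, Packs (Pr y) len m ∧
      (m : ℝ) ≤ ∑ p ∈ Pr y, y ^ 2 * (σ (p / y) - (p / y) ^ 2) + η * (y ^ 3 / Real.log y) := by
  classical
  -- the number of blocks
  obtain ⟨J, hJ⟩ := exists_nat_ge (25 / η + 4)
  have hJ4 : (4 : ℝ) ≤ J := by
    have : 0 < 25 / η := by positivity
    linarith
  have hJ4' : 4 ≤ J := by exact_mod_cast hJ4
  have hJ0 : (0 : ℝ) < J := by linarith
  have hJη : 25 / (J : ℝ) ≤ η := by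
    rw [div_le_iff₀ hJ0]
    have h1 : 25 / η ≤ J := by linarith
    rw [div_le_iff₀ hη] at h1
    linarith
  obtain ⟨ε, hε⟩ : ∃ ε : ℝ, ε = 1 / (J : ℝ) := ⟨_, rfl⟩
  have hε0 : 0 < ε := by rw [hε]; positivity
  have hε1 : ε < 1 := by rw [hε, div_lt_one hJ0]; linarith
  have hJε : (J : ℝ) * ε = 1 := by rw [hε]; field_simp
  obtain ⟨C, Y₁, hC, hblock⟩ := block ε ε ε hε0 hε1 hε0 hε0
  obtain ⟨Y₂, hY₂1, hpi⟩ := pi_unif ε hε0
  have hl1 := (Real.isLittleO_log_id_atTop).bound (show (0 : ℝ) < ε / ((J + 1) * (C + 1)) by positivity)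
  obtain ⟨Y₃, hY₃⟩ := (hl1.and (eventually_ge_atTop ((J : ℝ) + 1))).exists_forall_of_atTop
  refine ⟨max (max Y₁ Y₂) Y₃, lt_of_lt_of_le hY₂1 ((le_max_right _ _).trans (le_max_left _ _)), ?_⟩
  intro y hy σ hσ1 hσ2 len hlen
  have hyY₁ : Y₁ ≤ y := ((le_max_left _ _).trans (le_max_left _ _)).trans hy
  have hyY₂ : Y₂ ≤ y := ((le_max_right _ _).trans (le_max_left _ _)).trans hy
  obtain ⟨hlogy, hyJ⟩ := hY₃ y ((le_max_right _ _).trans hy)
  have hy5 : 5 ≤ y := by linarith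
  have hy0 : 0 < y := by linarith
  have hly : 0 < Real.log y := Real.log_pos (by linarith)
  have hy2J : (J : ℝ) ≤ y ^ 2 := by nlinarith
  have hCy : (J + 1) * (C + 1) * y ^ 2 ≤ ε * (y ^ 3 / Real.log y) := by
    rw [Real.norm_eq_abs, Real.norm_eq_abs, abs_of_pos hly, id, abs_of_pos hy0] at hlogy
    have h1 : (J + 1) * (C + 1) * Real.log y ≤ ε * y := by
      have h2 := mul_le_mul_of_nonneg_left hlogy (show 0 ≤ ((J : ℝ) + 1) * (C + 1) by positivity)
      have h3 : ((J : ℝ) + 1) * (C + 1) * (ε / ((J + 1) * (C + 1)) * y) = ε * y := by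
        field_simp
      linarith
    rw [← mul_div_assoc, le_div_iff₀ hly]
    calc (J + 1) * (C + 1) * y ^ 2 * Real.log y = ((J + 1) * (C + 1) * Real.log y) * y ^ 2 := by ring
      _ ≤ (ε * y) * y ^ 2 := by gcongr
      _ = ε * y ^ 3 := by ring
  -- the primes
  have hPr : ∀ p ∈ Pr y, p.Prime ∧ (0 : ℝ) < p ∧ (p : ℝ) ≤ y := fun p hp => by
    obtain ⟨h1, h2⟩ := (mem_Pr hy0.le).1 hp
    exact ⟨h1, by exact_mod_cast h1.pos, h2⟩
  have hx01 : ∀ p ∈ Pr y, 0 ≤ (p : ℝ) / y ∧ (p : ℝ) / y ≤ 1 := fun p hp => by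
    obtain ⟨_, h1, h2⟩ := hPr p hp
    exact ⟨by positivity, (div_le_one hy0).2 h2⟩
  have hblk : ∀ p ∈ Pr y, (blk J y p : ℝ) * ε ≤ p / y ∧ p / y < (blk J y p + 1) * ε ∧ blk J y p ≤ J := by
    intro p hp
    obtain ⟨_, h1, h2⟩ := hPr p hp
    have h3 : (0 : ℝ) ≤ p * J / y := by positivity
    have h4 := Nat.floor_le h3
    have h5 := Nat.lt_floor_add_one ((p : ℝ) * J / y)
    have h6 : (p : ℝ) * J / y * ε = p / y := by
      rw [hε]; field_simp
    refine ⟨?_, ?_, ?_⟩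
    · rw [← h6]
      exact mul_le_mul_of_nonneg_right h4 hε0.le
    · rw [← h6]
      exact mul_lt_mul_of_pos_right h5 hε0
    · have h7 : (p : ℝ) * J / y ≤ J := by
        rw [div_le_iff₀ hy0]
        nlinarith
      exact (Nat.cast_le (α := ℝ)).1 (h4.trans h7)
  set B : ℕ → Finset ℕ := fun j => (Pr y).filter (fun p => blk J y p = j) with hB
  set F : ℕ → ℝ := fun p => y ^ 2 * (σ (p / y) - (p / y) ^ 2 + 7 * ε) +
    (if J ≤ blk J y p + 1 then y ^ 2 else 0) with hF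
  -- each block
  have key : ∀ j ∈ range (J + 1), ∃ m : ℕ, Packs (B j) len m ∧
      (m : ℝ) ≤ ∑ p ∈ B j, F p + (C + 1) * y ^ 2 := by
    intro j hj
    have hjJ : j ≤ J := Nat.lt_succ_iff.1 (mem_range.1 hj)
    -- the trivial packing
    have htriv : (∀ p ∈ B j, y ^ 2 * σ (p / y) ≤ F p) → ∃ m : ℕ, Packs (B j) len m ∧
        (m : ℝ) ≤ ∑ p ∈ B j, F p + (C + 1) * y ^ 2 := by
      intro h
      refine ⟨_, packs_trivial (B j) (fun p hp => (hPr p (mem_filter.1 hp).1).1.pos) len, ?_⟩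
      push_cast
      have h1 : ∑ p ∈ B j, (len p : ℝ) * p ≤ ∑ p ∈ B j, F p :=
        sum_le_sum fun p hp => (hlen p (mem_filter.1 hp).1).trans (h p hp)
      have h2 : 0 ≤ (C + 1) * y ^ 2 := by positivity
      linarith
    rcases Nat.eq_zero_or_pos j with hj0 | hj0
    · apply htriv
      intro p hp
      obtain ⟨hpP, hpj⟩ := mem_filter.1 hp
      obtain ⟨h1, h2, h3⟩ := hblk p hpP
      rw [hpj, hj0] at h2
      obtain ⟨h4, h5⟩ := hx01 p hpP
      have h6 : ((p : ℝ) / y) ^ 2 ≤ 7 * ε := by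
        push_cast at h2
        nlinarith
      have h7 : 0 ≤ (if J ≤ blk J y p + 1 then y ^ 2 else 0) := by
        split_ifs <;> positivity
      rw [hF]
      show y ^ 2 * σ (p / y) ≤ y ^ 2 * (σ (p / y) - (p / y) ^ 2 + 7 * ε) +
        (if J ≤ blk J y p + 1 then y ^ 2 else 0)
      nlinarith [sq_nonneg y]
    by_cases hjlarge : J ≤ j + 1
    · apply htriv
      intro p hp
      obtain ⟨hpP, hpj⟩ := mem_filter.1 hp
      obtain ⟨h4, h5⟩ := hx01 p hpP
      rw [hF]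
      show y ^ 2 * σ (p / y) ≤ y ^ 2 * (σ (p / y) - (p / y) ^ 2 + 7 * ε) +
        (if J ≤ blk J y p + 1 then y ^ 2 else 0)
      rw [hpj, if_pos hjlarge]
      have h6 : ((p : ℝ) / y) ^ 2 ≤ 1 := pow_le_one₀ h4 h5
      nlinarith [sq_nonneg y]
    push Not at hjlarge
    have hj0r : (1 : ℝ) ≤ j := by exact_mod_cast hj0
    have hj1r : (j : ℝ) + 2 ≤ J := by exact_mod_cast hjlarge
    -- the block lemma
    obtain ⟨a, ha⟩ : ∃ a : ℝ, a = j * ε := ⟨_, rfl⟩
    have ha0 : ε ≤ a := by rw [ha]; nlinarith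
    have ha1 : a + 2 * ε ≤ 1 := by
      rw [ha, ← hJε]
      nlinarith
    obtain ⟨Δ, hΔ⟩ : ∃ Δ : ℕ, Δ = ⌈y ^ 2 * (σ (a + ε) - a ^ 2 + 3 * ε)⌉₊ := ⟨_, rfl⟩
    have hσa := hσ1 (a + ε) (by linarith) (by linarith)
    have hpos : ε ≤ σ (a + ε) - a ^ 2 + 3 * ε := by nlinarith
    have hΔ1 : y ^ 2 * (σ (a + ε) - a ^ 2 + 3 * ε) ≤ Δ := by rw [hΔ]; exact Nat.le_ceil _
    have hΔ2 : (Δ : ℝ) < y ^ 2 * (σ (a + ε) - a ^ 2 + 3 * ε) + 1 := by
      rw [hΔ]
      exact Nat.ceil_lt_add_one (mul_nonneg (by positivity) (by linarith))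
    have hεy : 1 ≤ ε * y ^ 2 := by
      rw [← hJε, mul_comm]
      exact mul_le_mul_of_nonneg_left hy2J hε0.le
    obtain ⟨m, hm1, hm2⟩ := hblock y hyY₁ (a * y) Δ (mul_le_mul_of_nonneg_right ha0 hy0.le)
      (by
        refine le_trans ?_ hΔ1
        rw [mul_comm]
        exact mul_le_mul_of_nonneg_left hpos (by positivity)) len (B j)
      (by
        intro p hp
        obtain ⟨hpP, hpj⟩ := mem_filter.1 hp
        obtain ⟨h1, h2, h3⟩ := hblk p hpP
        obtain ⟨h4, h5⟩ := hx01 p hpP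
        obtain ⟨h6, h7, h8⟩ := hPr p hpP
        rw [hpj, ← ha] at h1
        rw [hpj] at h2
        have h2' : (p : ℝ) / y < a + ε := by rw [ha]; linarith
        have h9 := hlen p hpP
        have h10 := (hσ2 (p / y) (a + ε) h2'.le).1
        have h11 := (hσ1 (p / y) h4 h5).2
        refine ⟨h6, ?_, h8, ?_, ?_⟩
        · rwa [le_div_iff₀ hy0] at h1
        · refine h9.trans ?_
          nlinarith [sq_nonneg y]
        · have h12 : y ^ 2 * σ (p / y) ≤ y ^ 2 * σ (a + ε) := by gcongr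
          have h13 : ε * (a * y) ^ 2 ≤ ε * y ^ 2 := by
            rw [mul_pow]
            have : a ^ 2 ≤ 1 := pow_le_one₀ (by linarith) (by linarith)
            have h14 : a ^ 2 * y ^ 2 ≤ 1 * y ^ 2 := mul_le_mul_of_nonneg_right this (by positivity)
            nlinarith
          nlinarith)
    refine ⟨m, hm1, hm2.trans ?_⟩
    have h15 : ((B j).card : ℝ) * Δ ≤ ∑ p ∈ B j, F p := by
      rw [← nsmul_eq_mul, ← sum_const]
      refine sum_le_sum fun p hp => ?_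
      obtain ⟨hpP, hpj⟩ := mem_filter.1 hp
      obtain ⟨h1, h2, h3⟩ := hblk p hpP
      obtain ⟨h4, h5⟩ := hx01 p hpP
      rw [hpj, ← ha] at h1
      rw [hpj] at h2
      have h2' : (p : ℝ) / y < a + ε := by rw [ha]; linarith
      have h10 := (hσ2 (p / y) (a + ε) h2'.le).2
      have h11 : σ (a + ε) ≤ σ (p / y) + ε := by linarith
      have h12 : ((p : ℝ) / y) ^ 2 - 2 * ε ≤ a ^ 2 := by nlinarith
      have h7 : 0 ≤ (if J ≤ blk J y p + 1 then y ^ 2 else 0) := by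
        split_ifs <;> positivity
      rw [hF]
      show (Δ : ℝ) ≤ y ^ 2 * (σ (p / y) - (p / y) ^ 2 + 7 * ε) +
        (if J ≤ blk J y p + 1 then y ^ 2 else 0)
      have h13 : y ^ 2 * (σ (a + ε) - a ^ 2 + 3 * ε) ≤ y ^ 2 * (σ (p / y) - (p / y) ^ 2 + 6 * ε) := by
        apply mul_le_mul_of_nonneg_left _ (by positivity)
        linarith
      nlinarith
    have h16 : 0 ≤ y ^ 2 := by positivity
    nlinarith
  choose! m hm1 hm2 using key
  have hun : (range (J + 1)).biUnion B = Pr y := by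
    ext p
    rw [mem_biUnion]
    constructor
    · rintro ⟨j, _, hj⟩
      exact (mem_filter.1 hj).1
    · intro hp
      exact ⟨blk J y p, mem_range.2 (Nat.lt_succ_iff.2 (hblk p hp).2.2), mem_filter.2 ⟨hp, rfl⟩⟩
  refine ⟨∑ j ∈ range (J + 1), m j, ?_, ?_⟩
  · have := packs_biUnion (range (J + 1)) B len m hm1
    rwa [hun] at this
  · -- the total
    have h1 : ((∑ j ∈ range (J + 1), m j : ℕ) : ℝ) ≤ ∑ p ∈ Pr y, F p + (J + 1) * (C + 1) * y ^ 2 := by
      push_cast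
      calc ∑ j ∈ range (J + 1), (m j : ℝ) ≤ ∑ j ∈ range (J + 1), (∑ p ∈ B j, F p + (C + 1) * y ^ 2) :=
            sum_le_sum hm2
        _ = ∑ j ∈ range (J + 1), ∑ p ∈ B j, F p + (J + 1) * (C + 1) * y ^ 2 := by
            rw [sum_add_distrib, sum_const, card_range, nsmul_eq_mul]
            push_cast
            ring
        _ = _ := by
            congr 1
            exact sum_fiberwise_of_maps_to
              (fun p hp => mem_range.2 (Nat.lt_succ_iff.2 (hblk p hp).2.2)) F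
    have h2 : ∑ p ∈ Pr y, F p = ∑ p ∈ Pr y, y ^ 2 * (σ (p / y) - (p / y) ^ 2) +
        (Pr y).card * (7 * ε * y ^ 2) +
        (((Pr y).filter (fun p => J ≤ blk J y p + 1)).card : ℝ) * y ^ 2 := by
      rw [hF, sum_add_distrib, ← sum_filter, sum_const, nsmul_eq_mul]
      congr 1
      rw [← nsmul_eq_mul, ← sum_const, ← sum_add_distrib]
      exact sum_congr rfl fun p _ => by ring
    -- the number of primes
    have h3 : ((Pr y).card : ℝ) ≤ 2 * (y / Real.log y) := by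
      rw [card_Pr]
      have h := (abs_le.1 (hpi y hyY₂ y hy0.le le_rfl)).2
      rw [div_self hy0.ne'] at h
      have h4 : (Nat.primeCounting ⌊y⌋₊ : ℝ) * Real.log y / y ≤ 2 := by linarith
      rw [div_le_iff₀ hy0] at h4
      rw [← mul_div_assoc, le_div_iff₀ hly]
      exact h4
    have h5 : (((Pr y).filter (fun p => J ≤ blk J y p + 1)).card : ℝ) ≤ 5 * ε * (y / Real.log y) := by
      -- primes above (1 - ε) y
      obtain ⟨z, hz⟩ : ∃ z : ℝ, z = (1 - 2 * ε) * y := ⟨_, rfl⟩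
      have hε4 : 4 * ε ≤ 1 := by rw [← hJε]; nlinarith
      have hz0 : 0 ≤ z := by rw [hz]; exact mul_nonneg (by linarith) hy0.le
      have hzy : z ≤ y := by rw [hz]; nlinarith
      have hsub : (Pr y).filter (fun p => J ≤ blk J y p + 1) ⊆ Pr y \ Pr z := by
        intro p hp
        obtain ⟨hpP, hpj⟩ := mem_filter.1 hp
        rw [Finset.mem_sdiff]
        refine ⟨hpP, fun hpz => ?_⟩
        obtain ⟨h1, h2, h3⟩ := hblk p hpP
        have h4 := ((mem_Pr hz0).1 hpz).2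
        have h5 : (J : ℝ) ≤ blk J y p + 1 := by exact_mod_cast hpj
        have h6 : (J : ℝ) * ε ≤ (blk J y p + 1) * ε := mul_le_mul_of_nonneg_right h5 hε0.le
        rw [hJε] at h6
        have h7 : (p : ℝ) / y ≤ 1 - 2 * ε := by
          rw [div_le_iff₀ hy0, ← hz]
          exact h4
        nlinarith
      have hsub2 : Pr z ⊆ Pr y := by
        intro p hp
        obtain ⟨h1, h2⟩ := (mem_Pr hz0).1 hp
        exact (mem_Pr hy0.le).2 ⟨h1, h2.trans hzy⟩
      have h6 : (((Pr y).filter (fun p => J ≤ blk J y p + 1)).card : ℝ) ≤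
          (Nat.primeCounting ⌊y⌋₊ : ℝ) - Nat.primeCounting ⌊z⌋₊ := by
        rw [← card_Pr, ← card_Pr]
        have h7 := card_le_card hsub
        rw [card_sdiff_of_subset hsub2] at h7
        have h8 := card_le_card hsub2
        have h9 : (((Pr y).filter (fun p => J ≤ blk J y p + 1)).card : ℝ) ≤
            (((Pr y).card - (Pr z).card : ℕ) : ℝ) := by exact_mod_cast h7
        rwa [Nat.cast_sub h8] at h9
      refine h6.trans ?_
      have h7 := (abs_le.1 (hpi y hyY₂ y hy0.le le_rfl)).2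
      have h8 := (abs_le.1 (hpi y hyY₂ z hz0 hzy)).1
      rw [div_self hy0.ne'] at h7
      have h9 : z / y = 1 - 2 * ε := by rw [hz]; field_simp
      rw [h9] at h8
      have h10 : ((Nat.primeCounting ⌊y⌋₊ : ℝ) - Nat.primeCounting ⌊z⌋₊) * Real.log y / y ≤ 5 * ε := by
        rw [sub_mul, sub_div]
        linarith
      rw [div_le_iff₀ hy0] at h10
      rw [← mul_div_assoc, le_div_iff₀ hly]
      exact h10
    have hy2 : 0 ≤ y ^ 2 := by positivity
    have e3 : y ^ 3 / Real.log y = y ^ 2 * (y / Real.log y) := by ring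
    have h6 : ((Pr y).card : ℝ) * (7 * ε * y ^ 2) ≤ 14 * ε * (y ^ 3 / Real.log y) := by
      rw [e3]
      calc ((Pr y).card : ℝ) * (7 * ε * y ^ 2) ≤ 2 * (y / Real.log y) * (7 * ε * y ^ 2) := by gcongr
        _ = _ := by ring
    have h7 : (((Pr y).filter (fun p => J ≤ blk J y p + 1)).card : ℝ) * y ^ 2 ≤
        5 * ε * (y ^ 3 / Real.log y) := by
      rw [e3]
      calc _ ≤ 5 * ε * (y / Real.log y) * y ^ 2 := by gcongr
        _ = _ := by ring
    have h8 : 25 * ε * (y ^ 3 / Real.log y) ≤ η * (y ^ 3 / Real.log y) := by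
      apply mul_le_mul_of_nonneg_right _ (by positivity)
      rw [hε]
      linarith [hJη, (by ring : 25 * (1 / (J : ℝ)) = 25 / J)]
    have h9 : 0 ≤ ε * (y ^ 3 / Real.log y) := by positivity
    rw [h2] at h1
    linarith

end Pool.Agent.X25.Pk
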